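import Mathlib

/-!
# The combinatorial half of the basis theorem for `RS_n`

`M` is a monoid, `f : ℕ → M` a valuation of the letters such that
`X Y X = X (Y X)^(n+1)` and `X Y X (Z X)^n = X (Z X)^n Y X` for every letter value `X = f b`
and all `Y Z : M`.
-/

namespace RSCov

/-- adjacent pairs of a list -/
def pairs {α : Type*} : List α → List (α × α)
  | a :: b :: t => (a, b) :: pairs (b :: t)
  | _ => []

@[simp] theorem pairs_nil {α : Type*} : pairs ([] : List α) = [] := rfl
@[simp] theorem pairs_single {α : Type*} (a : α) : pairs [a] = [] := rfl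
@[simp] theorem pairs_cons_cons {α : Type*} (a b : α) (t : List α) :
    pairs (a :: b :: t) = (a, b) :: pairs (b :: t) := rfl

theorem pairs_append {α : Type*} (l₁ : List α) (b : α) (l₂ : List α) :
    pairs (l₁ ++ b :: l₂) = pairs (l₁ ++ [b]) ++ pairs (b :: l₂) := by
  induction l₁ with
  | nil => simp
  | cons a t ih =>
    cases t with
    | nil => simp
    | cons c t => simpa using ih

theorem mem_pairs {α : Type*} {a b : α} {l : List α} :
    (a, b) ∈ pairs l ↔ ∃ l₁ l₂, l = l₁ ++ a :: b :: l₂ := by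
  induction l with
  | nil => simp
  | cons c t ih =>
    cases t with
    | nil =>
      simp only [pairs_single, List.not_mem_nil, false_iff, not_exists]
      intro l₁ l₂ h
      have := congrArg List.length h
      simp at this
      omega
    | cons d t =>
      rw [pairs_cons_cons, List.mem_cons, ih]
      constructor
      · rintro (h | ⟨l₁, l₂, h⟩)
        · obtain ⟨rfl, rfl⟩ := Prod.mk.inj h
          exact ⟨[], t, rfl⟩
        · exact ⟨c :: l₁, l₂, by rw [h]; rfl⟩
      · rintro ⟨l₁, l₂, h⟩
        cases l₁ with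
        | nil =>
          simp only [List.nil_append, List.cons.injEq] at h
          obtain ⟨rfl, rfl, _⟩ := h
          exact Or.inl rfl
        | cons e l₁ =>
          simp only [List.cons_append, List.cons.injEq] at h
          exact Or.inr ⟨l₁, l₂, h.2⟩

/-- weight of a word -/
def wt {α G : Type*} [Monoid G] (φ : α → α → G) (l : List α) : G :=
  ((pairs l).map fun e => φ e.1 e.2).prod

@[simp] theorem wt_nil {α G : Type*} [Monoid G] (φ : α → α → G) : wt φ [] = 1 := rfl
@[simp] theorem wt_single {α G : Type*} [Monoid G] (φ : α → α → G) (a : α) : wt φ [a] = 1 := rfl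
@[simp] theorem wt_cons_cons {α G : Type*} [Monoid G] (φ : α → α → G) (a b : α) (t : List α) :
    wt φ (a :: b :: t) = φ a b * wt φ (b :: t) := by simp [wt]

theorem wt_append {α G : Type*} [Monoid G] (φ : α → α → G) (l₁ : List α) (b : α) (l₂ : List α) :
    wt φ (l₁ ++ b :: l₂) = wt φ (l₁ ++ [b]) * wt φ (b :: l₂) := by
  simp [wt, pairs_append l₁ b l₂]

/-- `Path E a l b`: the list `l` of letters following `a` is a path from `a` to `b` with all
steps in `E`. -/
inductive Path {α : Type*} (E : α → α → Prop) : α → List α → α → Prop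
  | nil (a : α) : Path E a [] a
  | cons {a b : α} {l : List α} {c : α} : E a b → Path E b l c → Path E a (b :: l) c

theorem Path.append {α : Type*} {E : α → α → Prop} {a b c : α} {l l' : List α}
    (h : Path E a l b) (h' : Path E b l' c) : Path E a (l ++ l') c := by
  induction h with
  | nil => simpa
  | cons e _ ih => exact Path.cons e (ih h')

theorem Path.mono {α : Type*} {E F : α → α → Prop} (hEF : ∀ a b, E a b → F a b) {a b : α}
    {l : List α} (h : Path E a l b) : Path F a l b := by
  induction h with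
  | nil => exact Path.nil _
  | cons e _ ih => exact Path.cons (hEF _ _ e) ih

theorem Path.single {α : Type*} {E : α → α → Prop} {a b : α} (h : E a b) : Path E a [b] b :=
  Path.cons h (Path.nil b)

/-- a path ends at its end -/
theorem Path.ends {α : Type*} {E : α → α → Prop} {a b : α} {l : List α} (h : Path E a l b) :
    ∃ t, a :: l = t ++ [b] := by
  induction h with
  | nil a => exact ⟨[], rfl⟩
  | @cons a b l c _ _ ih =>
    obtain ⟨t, ht⟩ := ih
    exact ⟨a :: t, by rw [ht]; rfl⟩

theorem Path.ends_ne {α : Type*} {E : α → α → Prop} {a b : α} {l : List α} (h : Path E a l b)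
    (hl : l ≠ []) : ∃ t, l = t ++ [b] := by
  cases h with
  | nil => exact absurd rfl hl
  | cons _ h' => exact h'.ends

/-- the word `a :: l` gives a path. -/
theorem Path.of_pairs {α : Type*} {E : α → α → Prop} (l : List α) : ∀ (a b : α) (t : List α),
    a :: l = t ++ [b] → (∀ e ∈ pairs (a :: l), E e.1 e.2) → Path E a l b := by
  induction l with
  | nil =>
    intro a b t h _
    have : t = [] := by
      cases t with
      | nil => rfl
      | cons c t =>
        have := congrArg List.length h
        simp at this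
    subst this
    simp only [List.nil_append, List.cons.injEq, and_true] at h
    subst h
    exact Path.nil _
  | cons c l ih =>
    intro a b t h hE
    refine Path.cons (hE (a, c) (by simp)) ?_
    cases t with
    | nil => simp at h
    | cons d t =>
      simp only [List.cons_append, List.cons.injEq] at h
      exact ih c b t h.2 (fun e he => hE e (by simp [he]))

theorem Path.pairs_mem {α : Type*} {E : α → α → Prop} {a b : α} {l : List α}
    (h : Path E a l b) : ∀ e ∈ pairs (a :: l), E e.1 e.2 := by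
  induction h with
  | nil => simp
  | cons e _ ih =>
    intro p hp
    rw [pairs_cons_cons, List.mem_cons] at hp
    rcases hp with rfl | hp
    · exact e
    · exact ih p hp

section Monoid

variable {M : Type*} [Monoid M]

theorem mul_pow_slide (a b : M) (k : ℕ) : (a * b) ^ k * a = a * (b * a) ^ k := by
  induction k with
  | zero => simp
  | succ k ih =>
    rw [pow_succ', pow_succ', mul_assoc, ih]
    simp only [mul_assoc]

variable (f : ℕ → M) (n : ℕ)

/-- value of a word -/
def ev (l : List ℕ) : M := (l.map f).prod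

@[simp] theorem ev_nil : ev f [] = 1 := rfl
@[simp] theorem ev_cons (a : ℕ) (l : List ℕ) : ev f (a :: l) = f a * ev f l := by simp [ev]
@[simp] theorem ev_append (l l' : List ℕ) : ev f (l ++ l') = ev f l * ev f l' := by simp [ev]

/-- `k`-fold repetition of a word -/
def rep (l : List ℕ) (k : ℕ) : List ℕ := (List.replicate k l).flatten

@[simp] theorem rep_zero (l : List ℕ) : rep l 0 = [] := rfl
theorem rep_succ (l : List ℕ) (k : ℕ) : rep l (k + 1) = l ++ rep l k := by
  simp [rep, List.replicate_succ]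
theorem rep_succ' (l : List ℕ) (k : ℕ) : rep l (k + 1) = rep l k ++ l := by
  simp [rep, List.replicate_succ']
@[simp] theorem ev_rep (l : List ℕ) (k : ℕ) : ev f (rep l k) = ev f l ^ k := by
  induction k with
  | zero => simp
  | succ k ih => rw [rep_succ, ev_append, ih, pow_succ']

theorem Path.rep {E : ℕ → ℕ → Prop} {a : ℕ} {l : List ℕ} (h : Path E a l a) (k : ℕ) :
    Path E a (RSCov.rep l k) a := by
  induction k with
  | zero => exact Path.nil a
  | succ k ih => rw [rep_succ]; exact h.append ih

variable {f n}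

/-- the two identities at the letters -/
structure Good (f : ℕ → M) (n : ℕ) : Prop where
  pos : 1 ≤ n
  h1 : ∀ b (Y : M), f b * Y * f b = f b * (Y * f b) ^ (n + 1)
  h2 : ∀ b (Y Z : M), f b * Y * f b * (Z * f b) ^ n = f b * (Z * f b) ^ n * Y * f b

/-- `D` is `1` or ends in `z`. -/
def Lp (f : ℕ → M) (z : ℕ) (D : M) : Prop := D = 1 ∨ ∃ Q, D = Q * f z

theorem Lp.path {E : ℕ → ℕ → Prop} {z : ℕ} {l : List ℕ} (h : Path E z l z) :
    Lp f z (ev f l) := by
  by_cases hl : l = []
  · left; simp [hl]
  · obtain ⟨t, rfl⟩ := h.ends_ne hl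
    right; exact ⟨ev f t, by simp⟩

theorem Lp.mul {z : ℕ} {D D' : M} (h : Lp f z D) (h' : Lp f z D') : Lp f z (D * D') := by
  rcases h' with rfl | ⟨Q, rfl⟩
  · simpa using h
  · right; exact ⟨D * Q, by simp [mul_assoc]⟩

theorem Lp.pow {z : ℕ} {D : M} (h : Lp f z D) (k : ℕ) : Lp f z (D ^ k) := by
  induction k with
  | zero => left; simp
  | succ k ih => rw [pow_succ]; exact ih.mul h

theorem Good.L1 (hg : Good f n) {z : ℕ} {W D : M} (hD : Lp f z D) (hW : ∃ Q, W = Q * f z) :
    W * D ^ (n + 1) = W * D := by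
  rcases hD with rfl | ⟨R, rfl⟩
  · simp
  · obtain ⟨Q, rfl⟩ := hW
    have := hg.h1 z R
    rw [mul_assoc, ← this]
    simp only [mul_assoc]

theorem Good.L2 (hg : Good f n) {z : ℕ} {W D T : M} (hD : Lp f z D) (hT : Lp f z T)
    (hW : ∃ Q, W = Q * f z) :
    W * T * D ^ n = W * D ^ n * T := by
  rcases hD with rfl | ⟨R, rfl⟩
  · simp
  rcases hT with rfl | ⟨R', rfl⟩
  · simp
  · obtain ⟨Q, rfl⟩ := hW
    have := hg.h2 z R' R
    calc Q * f z * (R' * f z) * (R * f z) ^ n = Q * (f z * R' * f z * (R * f z) ^ n) := by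
          simp only [mul_assoc]
      _ = Q * f z * (R * f z) ^ n * (R' * f z) := by rw [this]; simp only [mul_assoc]

/-- `w` contains all steps of `E`. -/
def Covers (E : ℕ → ℕ → Prop) (w : List ℕ) : Prop := ∀ a b, E a b → (a, b) ∈ pairs w

theorem Covers.append_right {E : ℕ → ℕ → Prop} {w : List ℕ} (h : Covers E w) (w' : List ℕ) :
    Covers E (w ++ w') := by
  intro a b hab
  obtain ⟨l₁, l₂, rfl⟩ := mem_pairs.1 (h a b hab)
  exact mem_pairs.2 ⟨l₁, l₂ ++ w', by simp⟩

theorem Covers.append_left {E : ℕ → ℕ → Prop} {w : List ℕ} (h : Covers E w) (w' : List ℕ) :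
    Covers E (w' ++ w) := by
  intro a b hab
  obtain ⟨l₁, l₂, rfl⟩ := mem_pairs.1 (h a b hab)
  exact mem_pairs.2 ⟨w' ++ l₁, l₂, by simp⟩

/-- Return lemma. -/
theorem Good.ret (hg : Good f n) {E : ℕ → ℕ → Prop} {z c : ℕ} {p : List ℕ} (hp : Path E z p c) :
    ∀ (w : List ℕ), (∃ t, w = t ++ [z]) → Covers E w →
      ∃ s, Path (fun _ _ => True) c s z ∧ ev f w = ev f w * ev f p * ev f s := by
  induction hp with
  | nil a => intro w _ _; exact ⟨[], Path.nil a, by simp⟩
  | @cons a b l c hab _ ih =>
    intro w hw hc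
    obtain ⟨t, ht⟩ := hw
    obtain ⟨l₁, l₂, hl⟩ := mem_pairs.1 (hc a b hab)
    obtain ⟨s', hs', hev'⟩ := ih (w ++ [b]) ⟨w, rfl⟩ (hc.append_right _)
    -- `b :: l₂` ends with `a`
    have hend : ∃ t', b :: l₂ = t' ++ [a] := by
      have h1 : l₁ ++ [a] ++ (b :: l₂) = t ++ [a] := by rw [← ht, hl]; simp
      rcases List.append_eq_append_iff.1 h1 with ⟨as, h2, h3⟩ | ⟨bs, h2, h3⟩
      · exact ⟨as, h3⟩
      · -- `[a] = bs ++ b :: l₂`
        cases bs with
        | nil => exact ⟨[], by simpa using h3.symm⟩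
        | cons x bs =>
          have := congrArg List.length h3
          simp at this
    obtain ⟨t', ht'⟩ := hend
    have hloop : Path (fun _ _ => True) a (b :: l₂) a :=
      Path.of_pairs _ _ _ (a :: t') (by rw [ht']; rfl) (by simp)
    obtain ⟨m, rfl⟩ : ∃ m, n = m + 1 := ⟨n - 1, by have := hg.pos; omega⟩
    have hb : Path (fun _ _ => True) b l₂ a := by
      cases hloop with
      | cons _ h => exact h
    refine ⟨s' ++ (l₂ ++ rep (b :: l₂) m), hs'.append (hb.append (hloop.rep m)), ?_⟩
    have e1 : ev f w = ev f w * ev f (b :: l₂) ^ (m + 1) := by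
      have hw' : ev f w = ev f (l₁ ++ [a]) * ev f (b :: l₂) := by rw [hl]; simp [mul_assoc]
      have := hg.L1 (W := ev f (l₁ ++ [a])) (D := ev f (b :: l₂)) (z := a)
        (Lp.path hloop) ⟨ev f l₁, by simp⟩
      calc ev f w = ev f (l₁ ++ [a]) * ev f (b :: l₂) := hw'
        _ = ev f (l₁ ++ [a]) * ev f (b :: l₂) ^ (m + 1 + 1) := this.symm
        _ = ev f w * ev f (b :: l₂) ^ (m + 1) := by
          rw [pow_succ' _ (m + 1), ← mul_assoc, ← hw']
    calc ev f w = ev f w * ev f (b :: l₂) ^ (m + 1) := e1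
      _ = ev f (w ++ [b]) * ev f (l₂ ++ rep (b :: l₂) m) := by
          rw [pow_succ']; simp [mul_assoc]
      _ = ev f (w ++ [b]) * ev f l * ev f s' * ev f (l₂ ++ rep (b :: l₂) m) := by rw [← hev']
      _ = _ := by simp [mul_assoc]

/-- Lemma R'. -/
theorem Good.absorb (hg : Good f n) {E : ℕ → ℕ → Prop} {z : ℕ} {d : List ℕ} (hd : Path E z d z)
    {w : List ℕ} (hw : ∃ t, w = t ++ [z]) (hc : Covers E w) :
    ev f w * ev f d ^ n = ev f w := by
  obtain ⟨s, hs, hev⟩ := hg.ret hd w hw hc
  obtain ⟨t, ht⟩ := hw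
  have hWz : ∃ Q, ev f w = Q * f z := ⟨ev f t, by rw [ht]; simp⟩
  have hWd : ∃ Q, ev f w * ev f d = Q * f z := by
    rcases (Lp.path hd : Lp f z (ev f d)) with h | ⟨Q, h⟩
    · rw [h, mul_one]; exact hWz
    · exact ⟨ev f w * Q, by rw [h, mul_assoc]⟩
  calc ev f w * ev f d ^ n = ev f w * ev f d * ev f s * ev f d ^ n := by rw [← hev]
    _ = ev f w * ev f d * ev f d ^ n * ev f s := hg.L2 (Lp.path hd) (Lp.path hs) hWd
    _ = ev f w * ev f d ^ (n + 1) * ev f s := by rw [pow_succ']; simp only [mul_assoc]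
    _ = ev f w * ev f d * ev f s := by rw [hg.L1 (Lp.path hd) hWz]
    _ = ev f w := hev.symm

end Monoid

end RSCov
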