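import Pool.Agent.Helper966.RS.Basis

namespace RSCov

/-- The corner monoid `e M e` of an idempotent `e`. -/
@[ext] structure Corner {M : Type} [Monoid M] (e : M) (he : e * e = e) : Type where
  val : M
  left : e * val = val
  right : val * e = val

namespace Corner

variable {M : Type} [Monoid M] {e : M} {he : e * e = e}

instance : Mul (Corner e he) := ⟨fun a b => ⟨a.val * b.val, by rw [← mul_assoc, a.left],
  by rw [mul_assoc, b.right]⟩⟩
instance : One (Corner e he) := ⟨⟨e, he, he⟩⟩

@[simp] theorem val_mul (a b : Corner e he) : (a * b).val = a.val * b.val := rfl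
@[simp] theorem val_one : (1 : Corner e he).val = e := rfl

instance : Monoid (Corner e he) where
  mul_assoc a b c := Corner.ext (by simp [mul_assoc])
  one_mul a := Corner.ext (by simp [a.left])
  mul_one a := Corner.ext (by simp [a.right])

theorem val_pow (a : Corner e he) (k : ℕ) : (a ^ (k + 1)).val = a.val ^ (k + 1) := by
  induction k with
  | zero => simp
  | succ k ih => rw [pow_succ, val_mul, ih, ← pow_succ]

end Corner

theorem Path.split {α : Type*} {E : α → α → Prop} {a : α} {l₂ : List α} :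
    ∀ (l₁ : List α) {x z : α} {u : List α}, Path E x u z → x :: u = l₁ ++ a :: l₂ →
      (∃ t, Path E x t a) ∧ Path E a l₂ z := by
  intro l₁
  induction l₁ with
  | nil =>
    intro x z u h hl
    simp only [List.nil_append, List.cons.injEq] at hl
    obtain ⟨rfl, rfl⟩ := hl
    exact ⟨⟨[], Path.nil _⟩, h⟩
  | cons c l₁ ih =>
    intro x z u h hl
    simp only [List.cons_append, List.cons.injEq] at hl
    obtain ⟨rfl, hl⟩ := hl
    cases h with
    | nil => simp at hl
    | @cons _ b l _ e h' =>
      obtain ⟨⟨t, ht⟩, h2⟩ := ih h' hl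
      exact ⟨⟨b :: t, Path.cons e ht⟩, h2⟩

theorem idem_pow {M : Type*} [Monoid M] {e D : M} (he : e * e = e) (k : ℕ) :
    (e * D * e) ^ (k + 1) = e * (D * e) ^ (k + 1) := by
  induction k with
  | zero => simp [mul_assoc]
  | succ k ih =>
    have h1 : (D * e) ^ (k + 1) * e = (D * e) ^ (k + 1) := by
      rw [pow_succ]; simp only [mul_assoc, he]
    calc (e * D * e) ^ (k + 1 + 1) = (e * D * e) ^ (k + 1) * (e * D * e) := pow_succ _ _
      _ = e * ((D * e) ^ (k + 1) * e) * (D * e) := by rw [ih]; simp only [mul_assoc]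
      _ = e * (D * e) ^ (k + 1 + 1) := by rw [h1, mul_assoc, ← pow_succ]

theorem ends_append {a b : ℕ} {E : ℕ → ℕ → Prop} {l w : List ℕ} (hw : ∃ t, w = t ++ [a])
    (h : Path E a l b) : ∃ t, w ++ l = t ++ [b] := by
  obtain ⟨t, rfl⟩ := hw
  obtain ⟨t', ht'⟩ := h.ends
  exact ⟨t ++ t', by rw [List.append_assoc, List.append_assoc, ← ht']; rfl⟩

theorem Good.block {M : Type} [Monoid M] {f : ℕ → M} {n : ℕ} (hg : Good f n)
    {E : ℕ → ℕ → Prop} {x z : ℕ} {u v r : List ℕ} (hu : Path E x u z) (hv : Path E x v z)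
    (hr : Path E z r x) (cu : Covers E (x :: u)) (cv : Covers E (x :: v))
    (hw : ∀ (G : Type) [Group G], (∀ g : G, g ^ n = 1) → ∀ φ : ℕ → ℕ → G,
      wt φ (x :: u) = wt φ (x :: v)) :
    ev f (x :: u) = ev f (x :: v) := by
  classical
  by_cases hu0 : u = []
  · subst hu0
    cases hv with
    | nil => rfl
    | cons e _ => simpa using cu _ _ e
  obtain ⟨m, rfl⟩ : ∃ m, n = m + 1 := ⟨n - 1, by have := hg.pos; omega⟩
  set lam := u ++ r with hlam
  have plam : Path E x lam x := hu.append hr
  have clam : Covers E (x :: lam) := cu.append_right r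
  have lam0 : lam ≠ [] := by simp [hlam, hu0]
  obtain ⟨t0, ht0⟩ := plam.ends_ne lam0
  have clam2 : Covers E (lam ++ lam) := by
    have : lam ++ lam = t0 ++ (x :: lam) := by
      conv_lhs => rw [ht0]
      rw [List.append_assoc, ← ht0]; rfl
    rw [this]; exact clam.append_left t0
  set w0 := rep lam (m + 1 + (m + 1)) with hw0
  have w0eq : w0 = lam ++ lam ++ rep lam (m + m) := by
    rw [hw0, show m + 1 + (m + 1) = (m + m) + 1 + 1 by omega, rep_succ, rep_succ]
    simp
  have pw0 : Path E x w0 x := plam.rep _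
  have cw0 : Covers E w0 := by rw [w0eq]; exact clam2.append_right _
  have ew0 : ∃ t, w0 = t ++ [x] := by
    apply pw0.ends_ne
    rw [w0eq]; simp [lam0]
  set ε := ev f w0 with hε
  have hεpow : ε = ev f lam ^ (m + 1) * ev f lam ^ (m + 1) := by
    rw [hε, hw0, ev_rep, pow_add]
  have habs : ∀ w, (∃ t, w = t ++ [x]) → Covers E w → ev f w * ε = ev f w := by
    intro w h1 h2
    rw [hεpow, ← mul_assoc, hg.absorb plam h1 h2, hg.absorb plam h1 h2]
  have hidem : ε * ε = ε := habs w0 ew0 cw0
  have hch : ∀ q, ∃ t s, (q = x → t = []) ∧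
      ((∃ t s, Path E x t q ∧ Path E q s x) → Path E x t q ∧ Path E q s x) := by
    intro q
    by_cases hq : q = x
    · subst hq
      exact ⟨[], [], fun _ => rfl, fun _ => ⟨Path.nil _, Path.nil _⟩⟩
    · by_cases h : ∃ t s, Path E x t q ∧ Path E q s x
      · obtain ⟨t, s, h⟩ := h
        exact ⟨t, s, fun h' => absurd h' hq, fun _ => h⟩
      · exact ⟨[], [], fun _ => rfl, fun h' => absurd h' h⟩
  choose τ ρ hτ hreach using hch
  set Reach : ℕ → Prop := fun q => ∃ t s, Path E x t q ∧ Path E q s x with hR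
  have reachE : ∀ a b, E a b → Reach a ∧ Reach b := by
    intro a b hab
    obtain ⟨l₁, l₂, h⟩ := mem_pairs.1 (cu a b hab)
    obtain ⟨⟨t, ht⟩, h2⟩ := hu.split l₁ h
    obtain ⟨⟨t', ht'⟩, h2'⟩ := hu.split (l₁ ++ [a]) (a := b) (l₂ := l₂) (by rw [h]; simp)
    exact ⟨⟨t, _, ht, h2.append hr⟩, ⟨t', _, ht', h2'.append hr⟩⟩
  have reachx : Reach x := ⟨[], [], Path.nil x, Path.nil x⟩
  have reachz : Reach z := ⟨u, r, hu, hr⟩
  set P' : ℕ → M := fun q => ev f (ρ q) * (ev f (τ q) * ev f (ρ q)) ^ m with hP'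
  have hP'ev : ∀ q, P' q = ev f (ρ q ++ rep (τ q ++ ρ q) m) := by
    intro q; simp [hP']
  have pP' : ∀ q, Reach q → Path E q (ρ q ++ rep (τ q ++ ρ q) m) x := by
    intro q hq
    obtain ⟨h1, h2⟩ := hreach q hq
    exact h2.append ((h1.append h2).rep m)
  have hK : ∀ q, Reach q → ∀ w, (∃ t, w = t ++ [q]) → Covers E w →
      ev f w * P' q * ε * ev f (τ q) = ev f w := by
    intro q hq w h1 h2
    obtain ⟨p1, p2⟩ := hreach q hq
    have e1 : ev f w * P' q * ε = ev f w * P' q := by
      have := habs (w ++ (ρ q ++ rep (τ q ++ ρ q) m)) (ends_append h1 (pP' q hq))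
        (h2.append_right _)
      rw [ev_append, ← hP'ev q] at this
      exact this
    rw [e1]
    have e2 : P' q * ev f (τ q) = (ev f (ρ q ++ τ q)) ^ (m + 1) := by
      simp only [hP', ev_append]
      rw [mul_assoc, mul_pow_slide, pow_succ']
      simp only [mul_assoc]
    rw [mul_assoc, e2]
    exact hg.absorb (p2.append p1) h1 h2
  -- the group
  set C := Corner ε hidem with hC
  set Φ : ℕ → ℕ → C := fun a b => ⟨ε * ev f (τ a) * f b * P' b * ε,
    by simp only [← mul_assoc, hidem], by simp only [mul_assoc, hidem]⟩ with hΦ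
  have hΦpow : ∀ a b, E a b → Φ a b ^ (m + 1) = 1 := by
    intro a b hab
    obtain ⟨ra, rb⟩ := reachE a b hab
    apply Corner.ext
    rw [Corner.val_pow]
    have e1 : (Φ a b).val = ε * ev f (τ a ++ [b] ++ (ρ b ++ rep (τ b ++ ρ b) m)) * ε := by
      simp only [hΦ, ev_append _ (τ a ++ [b]), ← hP'ev b]
      simp [mul_assoc]
    rw [e1, idem_pow hidem]
    have p1 : Path E x (τ a ++ [b] ++ (ρ b ++ rep (τ b ++ ρ b) m) ++ w0) x :=
      (((hreach a ra).1.append (Path.single hab)).append (pP' b rb)).append pw0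
    have := hg.absorb p1 ew0 cw0
    rw [ev_append _ _ w0] at this
    exact this
  set φ : ℕ → ℕ → Cˣ := fun a b =>
    if h : E a b then Units.ofPowEqOne (Φ a b) (m + 1) (hΦpow a b h) (Nat.succ_ne_zero m)
    else 1 with hφ
  have hφval : ∀ a b, E a b → (φ a b : C) = Φ a b := by
    intro a b hab
    simp only [hφ, dif_pos hab]
    rfl
  obtain ⟨tε, htε⟩ := ew0
  have hexp : ∀ g : Cˣ, g ^ (m + 1) = 1 := by
    intro g
    have hε' : ε = ev f tε * f x := by rw [hε, htε]; simp
    have h0 : (g : C).val = (g : C).val * ev f tε * f x := by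
      rw [mul_assoc]
      exact (g : C).right.symm.trans (congrArg ((g : C).val * ·) hε')
    set Y := (g : C).val * ev f tε with hY
    have h1 : (g : C).val ^ 2 = (g : C).val ^ (m + 1 + 2) := by
      rw [h0, pow_two]
      have := hg.h1 x Y
      calc Y * f x * (Y * f x) = Y * (f x * Y * f x) := by simp only [mul_assoc]
        _ = Y * (f x * (Y * f x) ^ (m + 1 + 1)) := by rw [this]
        _ = (Y * f x) ^ (m + 1 + 2) := by rw [pow_succ' _ (m + 1 + 1)]; simp only [mul_assoc]
    have h2 : (g : C) ^ 2 = (g : C) ^ (m + 1 + 2) := by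
      apply Corner.ext
      rw [Corner.val_pow, show m + 1 + 2 = (m + 1 + 1) + 1 by rfl, Corner.val_pow]
      exact h1
    have h3 : g ^ 2 = g ^ (m + 1 + 2) := by
      apply Units.ext
      simpa using h2
    rw [pow_add] at h3
    exact (mul_right_cancel (h3.symm.trans (one_mul _).symm))
  have htel : ∀ {a : ℕ} {l : List ℕ} {b : ℕ}, Path E a l b → Reach a →
      ((wt φ (a :: l) : Cˣ) : C).val = ε * ev f (τ a) * ev f l * P' b * ε := by
    intro a l b hp
    induction hp with
    | nil a =>
      intro ha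
      obtain ⟨p1, p2⟩ := hreach a ha
      have e1 : ev f (τ a) * P' a = (ev f (τ a ++ ρ a)) ^ (m + 1) := by
        simp only [hP', ev_append]
        rw [pow_succ']
        simp only [mul_assoc]
      have e2 : ε * ev f (τ a ++ ρ a) ^ (m + 1) = ε :=
        hg.absorb (p1.append p2) ⟨tε, htε⟩ cw0
      simp only [wt_single, ev_nil, mul_one]
      rw [mul_assoc ε, e1, e2, hidem]
      rfl
    | @cons a b l c hab hp ih =>
      intro ha
      obtain ⟨_, rb⟩ := reachE a b hab
      rw [wt_cons_cons, Units.val_mul, Corner.val_mul, ih rb, hφval a b hab]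
      have hk := hK b rb (w0 ++ τ a ++ [b]) ⟨_, rfl⟩ ((cw0.append_right _).append_right _)
      have hev : ev f (w0 ++ τ a ++ [b]) = ε * ev f (τ a) * f b := by simp [hε, mul_assoc]
      rw [hev] at hk
      simp only [hΦ, ev_cons]
      calc ε * ev f (τ a) * f b * P' b * ε * (ε * ev f (τ b) * ev f l * P' c * ε)
          = (ε * ev f (τ a) * f b * P' b * (ε * ε) * ev f (τ b)) * ev f l * P' c * ε := by
            simp only [mul_assoc]
        _ = (ε * ev f (τ a) * f b) * ev f l * P' c * ε := by rw [hidem, hk]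
        _ = _ := by simp only [mul_assoc]
  have key : ε * ev f u * P' z * ε = ε * ev f v * P' z * ε := by
    have h1 := htel hu reachx
    have h2 := htel hv reachx
    rw [hw Cˣ hexp φ, h2, hτ x rfl] at h1
    simpa using h1.symm
  -- `x ε u ≈ x ε v`
  have fin1 : ∀ v', Path E x v' z →
      f x * ε * ev f v' * P' z * ε * ev f (τ z) = f x * ε * ev f v' := by
    intro v' hv'
    have := hK z reachz (x :: (w0 ++ v')) ?_ ?_
    · simpa [mul_assoc] using this
    · have h0 : ∃ t, [x] = t ++ [x] := ⟨[], rfl⟩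
      exact ends_append (E := E) h0 (pw0.append hv')
    · exact (cw0.append_right v').append_left [x]
  have fin2 : ∀ v', Path E x v' z → Covers E (x :: v') → f x * ε * ev f v' = f x * ev f v' := by
    intro v' hv' cv'
    have p1 : Path E z (r ++ v') z := hr.append hv'
    have p2 : Path E x (v' ++ r) x := hv'.append hr
    have h0 : ∃ t, [x] = t ++ [x] := ⟨[], rfl⟩
    -- x v' = x (v' r)^n v'
    have e1 : f x * ev f v' = f x * (ev f v' * ev f r) ^ (m + 1) * ev f v' := by
      have := hg.absorb p1 (w := x :: v') (ends_append (E := E) h0 hv') cv'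
      rw [ev_cons, ev_append] at this
      rw [mul_assoc (f x), mul_pow_slide, ← mul_assoc]
      exact this.symm
    -- x (v' r)^n ε = x (v' r)^n
    have e2 : f x * (ev f v' * ev f r) ^ (m + 1) * ε = f x * (ev f v' * ev f r) ^ (m + 1) := by
      have := habs (x :: rep (v' ++ r) (m + 1)) (ends_append (E := E) h0 (p2.rep _)) ?_
      · simpa using this
      · rw [rep_succ, List.append_assoc, ← List.cons_append]
        exact cv'.append_right _
    -- commute
    have hLlam : Lp f x (ev f lam) := Lp.path plam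
    have hLT : Lp f x ((ev f v' * ev f r) ^ (m + 1)) := by
      have := (Lp.path p2 : Lp f x (ev f (v' ++ r))).pow (m + 1)
      simpa using this
    have e3 : f x * (ev f v' * ev f r) ^ (m + 1) * ε
        = f x * ε * (ev f v' * ev f r) ^ (m + 1) := by
      rw [hεpow]
      have c1 := hg.L2 hLlam hLT (W := f x) ⟨1, by simp⟩
      have c2 := hg.L2 hLlam hLT (W := f x * ev f lam ^ (m + 1)) (by
        rcases hLlam.pow (m + 1) with h | ⟨Q, h⟩
        · exact ⟨1, by rw [h]; simp⟩
        · exact ⟨f x * Q, by rw [h]; simp [mul_assoc]⟩)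
      rw [← mul_assoc, c1, c2]
      simp only [mul_assoc]
    -- absorb again
    have e4 : f x * ε * ev f v' = f x * ε * (ev f v' * ev f r) ^ (m + 1) * ev f v' := by
      have := hg.absorb p1 (w := x :: (w0 ++ v'))
        (ends_append (E := E) h0 (pw0.append hv')) ((cw0.append_right v').append_left [x])
      rw [ev_cons, ev_append, ev_append] at this
      rw [mul_assoc (f x * ε), mul_pow_slide, ← mul_assoc]
      simpa [mul_assoc] using this.symm
    rw [e4, ← e3, e2, ← e1]
  rw [ev_cons, ev_cons, ← fin2 u hu cu, ← fin2 v hv cv, ← fin1 u hu, ← fin1 v hv]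
  have : f x * (ε * ev f u * P' z * ε) * ev f (τ z) = f x * (ε * ev f v * P' z * ε) * ev f (τ z) := by
    rw [key]
  simpa only [mul_assoc] using this

end RSCov
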