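import Mathlib

/-!
# Semigroup varieties and the Rees–Sushkevich varieties `RS_n`: definitions

Definitions used in the hand-in for `MP_634f99_al`.
-/

namespace RSCov

/-- A (bundled) semigroup whose underlying set is a type in `Type`. -/
structure Sgp : Type 1 where
  /-- the underlying set -/
  carrier : Type
  /-- the multiplication -/
  [str : Semigroup carrier]

attribute [instance] Sgp.str

/-- A semigroup identity `u ≈ v`: a pair of nonempty words over a countable alphabet. -/
abbrev Identity : Type := FreeSemigroup ℕ × FreeSemigroup ℕ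

/-- The semigroup `S` satisfies the identity `e.1 ≈ e.2`. -/
def Satisfies (S : Type) [Semigroup S] (e : Identity) : Prop :=
  ∀ f : ℕ → S, FreeSemigroup.lift f e.1 = FreeSemigroup.lift f e.2

/-- The class of all semigroups satisfying all identities in `Γ`. -/
def Models (Γ : Set Identity) : Set Sgp := {S | ∀ e ∈ Γ, Satisfies S.carrier e}

/-- A class of semigroups is a variety if it is defined by a set of identities. -/
def IsVariety (V : Set Sgp) : Prop := ∃ Γ : Set Identity, V = Models Γ

/-- The variety generated by a class `K`: the class of all semigroups which satisfy all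
identities satisfied by all members of `K` (the smallest variety containing `K`). -/
def Gen (K : Set Sgp) : Set Sgp := Models {e | ∀ S ∈ K, Satisfies S.carrier e}

/-- `spow a k` is the `k`-th power `a ^ k = a * a * ⋯ * a` for `k ≥ 1`
(junk value `a` for `k = 0`; it is only used with `k ≥ 1`). -/
def spow {S : Type} [Semigroup S] (a : S) : ℕ → S
  | 0 => a
  | 1 => a
  | k + 2 => spow a (k + 1) * a

/-- A semigroup with zero `z` is `0`-simple if `S² ≠ {z}` and the only (nonempty, two-sided)
ideals of `S` are `{z}` and `S`. -/
def IsZeroSimple (S : Type) [Semigroup S] : Prop :=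
  ∃ z : S, (∀ a : S, z * a = z ∧ a * z = z) ∧ (∃ a b : S, a * b ≠ z) ∧
    ∀ I : Set S, I.Nonempty → (∀ a ∈ I, ∀ s : S, s * a ∈ I ∧ a * s ∈ I) →
      I = {z} ∨ I = Set.univ

/-- The variety `RS_n` generated by all `0`-simple semigroups satisfying `x² ≈ x^(n+2)`. -/
def RS (n : ℕ) : Set Sgp :=
  Gen {S | IsZeroSimple S.carrier ∧ ∀ x : S.carrier, spow x 2 = spow x (n + 2)}

/-- The lattice `𝓛` of all semigroup varieties (as a set of varieties). -/
def AllVarieties : Set (Set Sgp) := {V | IsVariety V}

/-- The lattice `𝓛_n` of all semigroup varieties satisfying `x² ≈ x^(n+2)`. -/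
def VarietiesOfType (n : ℕ) : Set (Set Sgp) :=
  {V | IsVariety V ∧ ∀ S ∈ V, ∀ x : S.carrier, spow x 2 = spow x (n + 2)}

/-- `V` is a cover of `U` in `L`. -/
def IsCover (L : Set (Set Sgp)) (U V : Set Sgp) : Prop :=
  V ∈ L ∧ U ⊂ V ∧ ∀ W ∈ L, ¬ (U ⊂ W ∧ W ⊂ V)

/-- The join of two varieties: the variety generated by their union. -/
def Join (U V : Set Sgp) : Set Sgp := Gen (U ∪ V)

/-- The variety generated by a single semigroup. -/
def VarOf (S : Type) [Semigroup S] : Set Sgp := Gen {⟨S⟩}

/-! ### The generating semigroups of the covers -/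

/-- The monogenic nilpotent semigroup `⟨x | x³ = 0⟩ = {x, x², 0}`. -/
inductive TN : Type
  | x | xx | zero
  deriving DecidableEq, Fintype

instance : Mul TN := ⟨fun a b => match a, b with
  | .x, .x => .xx
  | _, _ => .zero⟩

instance : Semigroup TN where
  mul_assoc := by decide

/-- The semigroup `{x, y, xy, yx, xyx, 0}` of all nonempty factors of the word `xyx` together
with `0`; the product of two factors is their concatenation if this is again a factor of `xyx`,
and `0` otherwise. -/
inductive T1 : Type
  | x | y | xy | yx | xyx | zero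
  deriving DecidableEq, Fintype

instance : Mul T1 := ⟨fun a b => match a, b with
  | .x, .y => .xy
  | .y, .x => .yx
  | .x, .yx => .xyx
  | .xy, .x => .xyx
  | _, _ => .zero⟩

instance : Semigroup T1 where
  mul_assoc := by decide

/-- The underlying set of the ten-element semigroup `T_L`.  Its elements are `0`, the triple
`(1, 1, 2)` (called `c`), and the triples `(i, m, j)` with `i, j ∈ {1, 2}` and `m ∈ {a, b}`
(called `el i m j`, where the Booleans `false`, `true` encode `1`, `2` for `i, j`, and `a`, `b`
for `m`). -/
inductive TL : Type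
  | zero : TL
  | c : TL
  | el (i m j : Bool) : TL
  deriving DecidableEq, Fintype

/-- The multiplication of `T_L`: `(i, m, j) (j, m', k) = (i, m m', k)`, all other products are
`0`, where `m m' = m` for `m ∈ {a, b}` and `1 m' = m'` (the two-element left zero semigroup
`{a, b}` with an identity element `1` adjoined). -/
instance : Mul TL := ⟨fun s t => match s, t with
  | .zero, _ => .zero
  | _, .zero => .zero
  | .c, .c => .zero
  | .c, .el i m j => if i = true then .el false m j else .zero
  | .el i m j, .c => if j = false then .el i m true else .zero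
  | .el i m j, .el i' _ j' => if j = i' then .el i m j' else .zero⟩

instance : Semigroup TL where
  mul_assoc := by decide

/-- The indices of the covers. -/
inductive Idx : Type
  | N | one | L | R
  | P (p : Nat.Primes)

/-- The semigroup attached to an index:
`⟨x | x³ = 0⟩`, the factors of `xyx`, `T_L`, its dual `T_R`, and, for every prime `p`, the cyclic
group of order `p ^ (v_p(n) + 1)`, where `v_p(n)` is the exponent of `p` in `n`. -/
def extra (n : ℕ) : Idx → Sgp
  | .N => ⟨TN⟩
  | .one => ⟨T1⟩
  | .L => ⟨TL⟩
  | .R => ⟨TLᵐᵒᵖ⟩
  | .P p => ⟨Multiplicative (ZMod ((p : ℕ) ^ (padicValNat p n + 1)))⟩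

/-- The candidates for the covers: `RS_n ∨ var T`, for the semigroups `T` above. -/
def Cov (n : ℕ) (i : Idx) : Set Sgp := Join (RS n) (VarOf (extra n i).carrier)

end RSCov
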