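import Pool.Agent.Helper966.RS.Block

namespace RSCov

theorem suffix_ends {α : Type*} {l l' t : List α} {q z : α} (h : l ++ q :: l' = t ++ [z]) :
    ∃ t', q :: l' = t' ++ [z] := by
  rcases List.append_eq_append_iff.1 h with ⟨as, _, h3⟩ | ⟨bs, _, h3⟩
  · exact ⟨as, h3⟩
  · cases bs with
    | nil => exact ⟨[], by simpa using h3.symm⟩
    | cons x bs =>
      have := congrArg List.length h3
      simp at this

theorem pairs_mem_both {α : Type*} {l : List α} {e : α × α} (h : e ∈ pairs l) :
    e.1 ∈ l ∧ e.2 ∈ l := by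
  obtain ⟨a, b⟩ := e
  obtain ⟨l₁, l₂, rfl⟩ := mem_pairs.1 h
  simp

theorem pairs_three {α : Type*} {l l' t : List α} {p q : α} (h : l = t ++ [p]) :
    pairs (l ++ q :: l') = pairs l ++ (p, q) :: pairs (q :: l') := by
  subst h
  rw [List.append_assoc]
  show pairs (t ++ p :: (q :: l')) = _
  rw [pairs_append]
  simp

theorem wt_three {α G : Type*} [Monoid G] (φ : α → α → G) {l l' t : List α} {p q : α}
    (h : l = t ++ [p]) :
    wt φ (l ++ q :: l') = wt φ l * (φ p q * wt φ (q :: l')) := by
  simp [wt, pairs_three h]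

theorem wt_congr {α G : Type*} [Monoid G] {φ ψ : α → α → G} {l : List α}
    (h : ∀ e ∈ pairs l, φ e.1 e.2 = ψ e.1 e.2) : wt φ l = wt ψ l := by
  unfold wt
  rw [List.map_congr_left h]

theorem wt_one {α G : Type*} [Monoid G] {φ : α → α → G} {l : List α}
    (h : ∀ e ∈ pairs l, φ e.1 e.2 = 1) : wt φ l = 1 := by
  unfold wt
  rw [List.map_congr_left (g := fun _ => 1) h]
  simp

theorem chainNot {α : Type*} {R : α → Prop} (t : List α) : ∀ (c : α), ¬ R c →
    (∀ a b, (a, b) ∈ pairs (c :: t) → R b → R a) → ∀ a ∈ c :: t, ¬ R a := by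
  induction t with
  | nil => intro c hc _ a ha; simp at ha; subst ha; exact hc
  | cons d t ih =>
    intro c hc hcl a ha
    have hd : ¬ R d := fun h => hc (hcl c d (by simp) h)
    rcases List.mem_cons.1 ha with rfl | ha
    · exact hc
    · exact ih d hd (fun a b hab => hcl a b (by simp [hab])) a ha

theorem splitR {α : Type*} {R : α → Prop} (u : List α) : ∀ (x : α), R x →
    (∀ a b, (a, b) ∈ pairs (x :: u) → R b → R a) →
    ∃ u₁ u₂, u = u₁ ++ u₂ ∧ (∀ a ∈ x :: u₁, R a) ∧ (∀ a ∈ u₂, ¬ R a) := by
  induction u with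
  | nil => intro x hx _; exact ⟨[], [], rfl, by simpa using hx, by simp⟩
  | cons c t ih =>
    intro x hx hcl
    have hcl' : ∀ a b, (a, b) ∈ pairs (c :: t) → R b → R a :=
      fun a b hab => hcl a b (by simp [hab])
    by_cases hc : R c
    · obtain ⟨u₁, u₂, rfl, h1, h2⟩ := ih c hc hcl'
      refine ⟨c :: u₁, u₂, rfl, ?_, h2⟩
      intro a ha
      rcases List.mem_cons.1 ha with rfl | ha
      · exact hx
      · exact h1 a ha
    · exact ⟨[], c :: t, rfl, by simpa using hx, chainNot t c hc hcl'⟩

theorem Path.strengthen {α : Type*} {E : α → α → Prop} {a b : α} {l : List α}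
    (h : Path E a l b) : Path (fun a' b' => E a' b' ∧ ∃ l', Path E b' l' b) a l b := by
  induction h with
  | nil => exact Path.nil _
  | @cons a b l c hab hp ih => exact Path.cons ⟨hab, l, hp⟩ ih

theorem char1 {α : Type*} {R : α → Prop} {l l' : List α} {q : α} (hl : l ≠ [])
    (h1 : ∀ a ∈ l, R a) (h2 : ∀ a ∈ q :: l', ¬ R a) (e : α × α) :
    e ∈ pairs l ↔ e ∈ pairs (l ++ q :: l') ∧ R e.2 := by
  obtain ⟨t, p, rfl⟩ : ∃ t p, l = t ++ [p] := ⟨l.dropLast, l.getLast hl, (List.dropLast_append_getLast hl).symm⟩
  rw [pairs_three rfl]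
  constructor
  · intro h
    exact ⟨by simp [h], h1 _ (pairs_mem_both h).2⟩
  · rintro ⟨h, hR⟩
    rcases List.mem_append.1 h with h | h
    · exact h
    · rcases List.mem_cons.1 h with rfl | h
      · exact absurd hR (h2 _ (by simp))
      · exact absurd hR (h2 _ (pairs_mem_both h).2)

theorem char2 {α : Type*} {R : α → Prop} {l l' : List α} {q : α} (hl : l ≠ [])
    (h1 : ∀ a ∈ l, R a) (h2 : ∀ a ∈ q :: l', ¬ R a) (e : α × α) :
    e ∈ pairs (q :: l') ↔ e ∈ pairs (l ++ q :: l') ∧ ¬ R e.1 := by
  obtain ⟨t, p, rfl⟩ : ∃ t p, l = t ++ [p] := ⟨l.dropLast, l.getLast hl, (List.dropLast_append_getLast hl).symm⟩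
  rw [pairs_three rfl]
  constructor
  · intro h
    exact ⟨by simp [h], h2 _ (pairs_mem_both h).1⟩
  · rintro ⟨h, hR⟩
    rcases List.mem_append.1 h with h | h
    · exact absurd (h1 _ (pairs_mem_both h).1) hR
    · rcases List.mem_cons.1 h with rfl | h
      · exact absurd (h1 _ (by simp)) hR
      · exact h

theorem Good.full {M : Type} [Monoid M] {f : ℕ → M} {n : ℕ} (hg : Good f n) :
    ∀ (N : ℕ) (x z : ℕ) (u v : List ℕ), (x :: u).length ≤ N → (∃ t, x :: u = t ++ [z]) →
      (∃ t, x :: v = t ++ [z]) → (∀ e, e ∈ pairs (x :: u) ↔ e ∈ pairs (x :: v)) →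
      (∀ (G : Type) [Group G], (∀ g : G, g ^ n = 1) → ∀ φ : ℕ → ℕ → G,
        wt φ (x :: u) = wt φ (x :: v)) →
      ev f (x :: u) = ev f (x :: v) := by
  classical
  intro N
  induction N with
  | zero => intro x z u v h; simp at h
  | succ N ih =>
    intro x z u v hlen hu hv hE hw
    set E : ℕ → ℕ → Prop := fun a b => (a, b) ∈ pairs (x :: u) with hEdef
    set R : ℕ → Prop := fun c => ∃ l, Path E c l x with hRdef
    have hx : R x := ⟨[], Path.nil x⟩
    have hcl : ∀ a b, (a, b) ∈ pairs (x :: u) → R b → R a := by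
      rintro a b hab ⟨l, hl⟩
      exact ⟨b :: l, Path.cons hab hl⟩
    obtain ⟨u₁, u₂, rfl, hu1, hu2⟩ := splitR u x hx hcl
    obtain ⟨v₁, v₂, rfl, hv1, hv2⟩ := splitR v x hx
      (fun a b hab => hcl a b ((hE _).2 hab))
    obtain ⟨tu, htu⟩ := hu
    obtain ⟨tv, htv⟩ := hv
    have ne : ∀ w : List ℕ, x :: w ≠ [] := fun w => by simp
    have hlast : ∀ w : List ℕ, ∃ t p, x :: w = t ++ [p] := fun w =>
      ⟨(x :: w).dropLast, (x :: w).getLast (ne w), (List.dropLast_append_getLast (ne w)).symm⟩
    obtain ⟨tp, p, hp⟩ := hlast u₁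
    obtain ⟨tp', p', hp'⟩ := hlast v₁
    cases u₂ with
    | nil =>
      have hv2' : v₂ = [] := by
        cases v₂ with
        | nil => rfl
        | cons q' v₂' =>
          exfalso
          have h1 : (p', q') ∈ pairs (x :: (v₁ ++ q' :: v₂')) := by
            rw [← List.cons_append, pairs_three hp']; simp
          have h2 := (pairs_mem_both ((hE _).2 h1)).2
          exact hv2 q' (by simp) (hu1 q' (by simpa using h2))
      subst hv2'
      simp only [List.append_nil] at *
      have hEE : ∀ a b, E a b ↔ (a, b) ∈ pairs (x :: u₁) := by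
        intro a b; simp [hEdef]
      have pu : Path E x u₁ z := Path.of_pairs _ _ _ tu htu (fun e he => (hEE _ _).2 he)
      have pv : Path E x v₁ z :=
        Path.of_pairs _ _ _ tv htv (fun e he => (hEE _ _).2 ((hE _).2 he))
      have hz : R z := hu1 z (by rw [htu]; simp)
      obtain ⟨r, hr⟩ := hz
      exact hg.block pu pv hr (fun a b h => (hEE _ _).1 h)
        (fun a b h => (hE _).1 ((hEE _ _).1 h)) hw
    | cons q u₂' =>
      cases v₂ with
      | nil =>
        exfalso
        have h1 : (p, q) ∈ pairs (x :: (u₁ ++ q :: u₂')) := by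
          rw [← List.cons_append, pairs_three hp]; simp
        have h2 := (pairs_mem_both ((hE _).1 h1)).2
        exact hu2 q (by simp) (hv1 q (by simpa using h2))
      | cons q' v₂' =>
        have hpq : (p', q') = (p, q) := by
          have h1 : (p', q') ∈ pairs (x :: (v₁ ++ q' :: v₂')) := by
            rw [← List.cons_append, pairs_three hp']; simp
          have h2 := (hE _).2 h1
          rw [← List.cons_append, pairs_three hp] at h2
          rcases List.mem_append.1 h2 with h | h
          · exact absurd (hu1 _ (pairs_mem_both h).2) (hv2 _ (by simp))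
          · rcases List.mem_cons.1 h with h | h
            · exact h
            · exact absurd (hv1 p' (by rw [hp']; simp)) (hu2 _ (pairs_mem_both h).1)
        obtain ⟨rfl, rfl⟩ := Prod.mk.inj hpq
        simp only [← List.cons_append] at *
        set E₁ : ℕ → ℕ → Prop := fun a b => (a, b) ∈ pairs (x :: u₁) with hE1
        have cu1 := char1 (ne u₁) hu1 hu2
        have cv1 := char1 (ne v₁) hv1 hv2
        have cu2 := char2 (ne u₁) hu1 hu2
        have cv2 := char2 (ne v₁) hv1 hv2
        have hE1' : ∀ e, e ∈ pairs (x :: u₁) ↔ e ∈ pairs (x :: v₁) := by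
          intro e; rw [cu1, cv1, hE]
        have hE2' : ∀ e, e ∈ pairs (q' :: u₂') ↔ e ∈ pairs (q' :: v₂') := by
          intro e; rw [cu2, cv2, hE]
        have w1 : ∀ (G : Type) [Group G], (∀ g : G, g ^ n = 1) → ∀ φ : ℕ → ℕ → G,
            wt φ (x :: u₁) = wt φ (x :: v₁) := by
          intro G _ hG φ
          have key : ∀ (w₁ w₂ : List ℕ) (t : List ℕ), x :: w₁ = t ++ [p'] →
              (∀ a ∈ x :: w₁, R a) → (∀ a ∈ q' :: w₂, ¬ R a) →
              wt (fun a b => if R b then φ a b else 1) (x :: w₁ ++ q' :: w₂)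
                = wt φ (x :: w₁) := by
            intro w₁ w₂ t ht h1 h2
            rw [wt_three _ ht]
            have a1 : wt (fun a b => if R b then φ a b else 1) (x :: w₁) = wt φ (x :: w₁) :=
              wt_congr (fun e he => by
                have := h1 _ (pairs_mem_both he).2
                simp [this])
            have a2 : wt (fun a b => if R b then φ a b else 1) (q' :: w₂) = 1 :=
              wt_one (fun e he => by
                have := h2 _ (pairs_mem_both he).2
                simp [this])
            have a3 : ¬ R q' := h2 q' (by simp)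
            rw [a1, a2]
            simp [a3]
          have := hw G hG (fun a b => if R b then φ a b else 1)
          rwa [key u₁ u₂' tp hp hu1 hu2, key v₁ v₂' tp' hp' hv1 hv2] at this
        have w2 : ∀ (G : Type) [Group G], (∀ g : G, g ^ n = 1) → ∀ φ : ℕ → ℕ → G,
            wt φ (q' :: u₂') = wt φ (q' :: v₂') := by
          intro G _ hG φ
          have key : ∀ (w₁ w₂ : List ℕ) (t : List ℕ), x :: w₁ = t ++ [p'] →
              (∀ a ∈ x :: w₁, R a) → (∀ a ∈ q' :: w₂, ¬ R a) →
              wt (fun a b => if R a then 1 else φ a b) (x :: w₁ ++ q' :: w₂)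
                = wt φ (q' :: w₂) := by
            intro w₁ w₂ t ht h1 h2
            rw [wt_three _ ht]
            have a1 : wt (fun a b => if R a then 1 else φ a b) (q' :: w₂) = wt φ (q' :: w₂) :=
              wt_congr (fun e he => by
                have := h2 _ (pairs_mem_both he).1
                simp [this])
            have a2 : wt (fun a b => if R a then 1 else φ a b) (x :: w₁) = 1 :=
              wt_one (fun e he => by
                have := h1 _ (pairs_mem_both he).1
                simp [this])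
            have a3 : R p' := h1 p' (by rw [ht]; simp)
            rw [a1, a2]
            simp [a3]
          have := hw G hG (fun a b => if R a then 1 else φ a b)
          rwa [key u₁ u₂' tp hp hu1 hu2, key v₁ v₂' tp' hp' hv1 hv2] at this
        obtain ⟨r, hr⟩ := hu1 p' (by rw [hp]; simp)
        have hr' : Path E₁ p' r x := by
          refine hr.strengthen.mono ?_
          rintro a b ⟨hab, hb⟩
          exact (cu1 (a, b)).2 ⟨hab, hb⟩
        have b1 : ev f (x :: u₁) = ev f (x :: v₁) :=
          hg.block (E := E₁) (Path.of_pairs _ _ _ tp hp (fun e he => he))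
            (Path.of_pairs _ _ _ tp' hp' (fun e he => (hE1' e).2 he)) hr'
            (fun a b h => h) (fun a b h => (hE1' _).1 h) w1
        have b2 : ev f (q' :: u₂') = ev f (q' :: v₂') := by
          refine ih q' z u₂' v₂' ?_ (suffix_ends htu) (suffix_ends htv) hE2' w2
          simp at hlen ⊢
          omega
        rw [ev_append, ev_append, b1, b2]

end RSCov
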