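import Pool.Agent.Helper966.RS.Sep

namespace RSCov

open FreeSemigroup

/-! ### The cyclic groups -/

theorem spow_group {G : Type} [Group G] (a : G) (k : ℕ) : spow a (k + 1) = a ^ (k + 1) := by
  induction k with
  | zero => simp [spow]
  | succ k ih => rw [spow, ih, ← pow_succ]

theorem Z_pow {q k : ℕ} (hk : q ∣ k) (a : Multiplicative (ZMod q)) : a ^ k = 1 := by
  rw [← toAdd_eq_zero, toAdd_pow, nsmul_eq_mul]
  have : (k : ZMod q) = 0 := (ZMod.natCast_eq_zero_iff k q).2 hk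
  rw [this, zero_mul]

theorem Z_sat_pow {q k : ℕ} (hk : q ∣ k) : Satisfies (Multiplicative (ZMod q)) (idPow 2 (k + 2)) := by
  rw [sat_pow]
  intro x
  rw [spow_group x 1, spow_group x (k + 1)]
  have h := Z_pow hk x
  calc x ^ (1 + 1) = 1 * x ^ (1 + 1) := (one_mul _).symm
    _ = x ^ k * x ^ (1 + 1) := by rw [h]
    _ = x ^ (k + 1 + 1) := (pow_add x k (1 + 1)).symm

theorem Z_sat_II {q k : ℕ} (hk : q ∣ k) : Satisfies (Multiplicative (ZMod q)) (idII k) := by
  rw [sat_II]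
  intro x y
  rw [spow_group, pow_succ, Z_pow hk, one_mul]

theorem Z_sat_III {q n : ℕ} : Satisfies (Multiplicative (ZMod q)) (idIII n) := by
  rw [sat_III]
  intro x y z
  generalize spow (z * x) n = s
  calc x * y * x * s = x * (y * x * s) := by simp only [mul_assoc]
    _ = x * (s * (y * x)) := by rw [mul_comm (y * x) s]
    _ = x * s * y * x := by simp only [mul_assoc]

theorem Z_dvd {q k j : ℕ} (h : Satisfies (Multiplicative (ZMod q)) (idPow (j + 1) (k + (j + 1)))) :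
    q ∣ k := by
  rw [sat_pow] at h
  have h0 := h (Multiplicative.ofAdd 1)
  clear h0
  have h1 : (Multiplicative.ofAdd (1 : ZMod q)) ^ k = 1 := by
    have h0 := h (Multiplicative.ofAdd 1)
    have e1 := spow_group (Multiplicative.ofAdd (1 : ZMod q)) j
    have e2 := spow_group (Multiplicative.ofAdd (1 : ZMod q)) (k + j)
    have e3 : spow (Multiplicative.ofAdd (1 : ZMod q)) (k + (j + 1))
        = (Multiplicative.ofAdd (1 : ZMod q)) ^ k * (Multiplicative.ofAdd (1 : ZMod q)) ^ (j + 1) := by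
      rw [← pow_add]; exact e2
    rw [e1, e3] at h0
    exact mul_right_cancel ((h0.symm).trans (one_mul _).symm)
  rw [← toAdd_eq_zero, toAdd_pow] at h1
  have h2 : (k : ZMod q) = 0 := by simpa using h1
  exact (ZMod.natCast_eq_zero_iff k q).1 h2

theorem not_dvd {n : ℕ} (hn : 1 ≤ n) (p : Nat.Primes) :
    ¬ (p : ℕ) ^ (padicValNat p n + 1) ∣ n := by
  haveI : Fact (p : ℕ).Prime := ⟨p.2⟩
  rw [padicValNat_dvd_iff_le (by omega)]
  omega

theorem dvd_mul_self' (n : ℕ) (p : Nat.Primes) :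
    (p : ℕ) ^ (padicValNat p n + 1) ∣ (p : ℕ) * n := by
  rw [pow_succ']
  exact mul_dvd_mul_left _ pow_padicValNat_dvd

theorem not_dvd' {n : ℕ} (hn : 1 ≤ n) {p p' : Nat.Primes} (h : p ≠ p') :
    ¬ (p : ℕ) ^ (padicValNat p n + 1) ∣ (p' : ℕ) * n := by
  intro h1
  apply not_dvd hn p
  have hc : Nat.Coprime ((p : ℕ) ^ (padicValNat p n + 1)) (p' : ℕ) := by
    apply Nat.Coprime.pow_left
    rw [Nat.coprime_primes p.2 p'.2]
    intro h2
    exact h (Subtype.ext h2)
  exact hc.dvd_of_dvd_mul_left h1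

/-! ### Separation -/

/-- the identity which holds in `RS n` and the `i`-th semigroup, but not in the `j`-th one. -/
def sepId (n : ℕ) : Idx → Idx → Identity
  | .N, .N => idII n
  | .N, .one => idII n
  | .N, .L => idIII n
  | .N, .R => idIII n
  | .N, .P _ => idPow 3 (n + 3)
  | .one, .L => idIII n
  | .one, .R => idIII n
  | .one, _ => idPow 2 (n + 2)
  | .L, .one => idII n
  | .L, .R => idIIIl n
  | .L, _ => idPow 2 (n + 2)
  | .R, .one => idII n
  | .R, .L => idIIIr n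
  | .R, _ => idPow 2 (n + 2)
  | .P p, .one => idII (p * n)
  | .P _, .L => idIII n
  | .P _, .R => idIII n
  | .P p, _ => idPow 2 (p * n + 2)

theorem sep {n : ℕ} (hn : 1 ≤ n) (i j : Idx) (hij : i ≠ j) :
    (∀ S ∈ KK n, Satisfies S.carrier (sepId n i j)) ∧
      Satisfies (extra n i).carrier (sepId n i j) ∧
      ¬ Satisfies (extra n j).carrier (sepId n i j) := by
  have k1 : ∀ S ∈ KK n, Satisfies S.carrier (idPow 2 (n + 2)) := fun S hS => KK_I hS
  have k2 : ∀ S ∈ KK n, Satisfies S.carrier (idII n) := fun S hS => KK_II hn hS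
  have k3 : ∀ S ∈ KK n, Satisfies S.carrier (idIII n) := fun S hS => KK_III hn hS
  have k4 : ∀ S ∈ KK n, Satisfies S.carrier (idPow 3 (n + 3)) := fun S hS => pow3_of (k1 S hS)
  have k5 : ∀ p, ∀ S ∈ KK n, Satisfies S.carrier (idPow 2 (p * n + 2)) :=
    fun p S hS => powp_of (k1 S hS) p
  have k6 : ∀ p : Nat.Primes, ∀ S ∈ KK n, Satisfies S.carrier (idII (p * n)) :=
    fun p S hS => IIp_of hn (k1 S hS) (k2 S hS) p.2.one_le
  have k7 : ∀ S ∈ KK n, Satisfies S.carrier (idIIIl n) := fun S hS => IIIl_of (k3 S hS)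
  have k8 : ∀ S ∈ KK n, Satisfies S.carrier (idIIIr n) := fun S hS => IIIr_of (k3 S hS)
  have Zi : ∀ p : Nat.Primes, ¬ Satisfies (extra n (.P p)).carrier (idPow 2 (n + 2)) :=
    fun p h => not_dvd hn p (Z_dvd (j := 1) h)
  have Ni : ¬ Satisfies TN (idPow 2 (n + 2)) := TN_not hn
  have pn : ∀ p : Nat.Primes, 1 ≤ (p : ℕ) * n := fun p => Nat.mul_pos p.2.pos hn
  match i, j, hij with
  | .N, .N, h => exact absurd rfl h
  | .N, .one, _ => exact ⟨k2, TN_II, T1_not hn⟩
  | .N, .L, _ => exact ⟨k3, TN_III, TL_not hn⟩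
  | .N, .R, _ => exact ⟨k3, TN_III, TR_not hn⟩
  | .N, .P p, _ => exact ⟨k4, TN_pow3, fun h => not_dvd hn p (Z_dvd (j := 2) h)⟩
  | .one, .N, _ => exact ⟨k1, pow_of_stab T1_stab, Ni⟩
  | .one, .one, h => exact absurd rfl h
  | .one, .L, _ => exact ⟨k3, T1_III hn, TL_not hn⟩
  | .one, .R, _ => exact ⟨k3, T1_III hn, TR_not hn⟩
  | .one, .P p, _ => exact ⟨k1, pow_of_stab T1_stab, Zi p⟩
  | .L, .N, _ => exact ⟨k1, pow_of_stab TL_stab, Ni⟩
  | .L, .one, _ => exact ⟨k2, TL_II, T1_not hn⟩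
  | .L, .L, h => exact absurd rfl h
  | .L, .R, _ => exact ⟨k7, TL_IIIl hn, TR_notl hn⟩
  | .L, .P p, _ => exact ⟨k1, pow_of_stab TL_stab, Zi p⟩
  | .R, .N, _ => exact ⟨k1, pow_of_stab TR_stab, Ni⟩
  | .R, .one, _ => exact ⟨k2, TR_II, T1_not hn⟩
  | .R, .L, _ => exact ⟨k8, TR_IIIr hn, TL_notr hn⟩
  | .R, .R, h => exact absurd rfl h
  | .R, .P p, _ => exact ⟨k1, pow_of_stab TR_stab, Zi p⟩
  | .P p, .N, _ => exact ⟨k5 p, Z_sat_pow (dvd_mul_self' n p), TN_not (pn p)⟩
  | .P p, .one, _ => exact ⟨k6 p, Z_sat_II (dvd_mul_self' n p), T1_not (pn p)⟩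
  | .P p, .L, _ => exact ⟨k3, Z_sat_III, TL_not hn⟩
  | .P p, .R, _ => exact ⟨k3, Z_sat_III, TR_not hn⟩
  | .P p, .P p', h =>
    exact ⟨k5 p, Z_sat_pow (dvd_mul_self' n p), fun h' =>
      not_dvd' hn (fun h2 => h (by rw [h2])) (Z_dvd (j := 1) h')⟩

/-- none of the semigroups is in `RS n`. -/
theorem extra_not_mem {n : ℕ} (hn : 1 ≤ n) (i : Idx) : extra n i ∉ RS n := by
  rw [mem_RS hn]
  rintro ⟨h1, h2, h3⟩
  match i with
  | .N => exact TN_not hn h1
  | .one => exact T1_not hn h2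
  | .L => exact TL_not hn h3
  | .R => exact TR_not hn h3
  | .P p => exact not_dvd hn p (Z_dvd (j := 1) h1)

/-! ### Existence of an extra semigroup in every larger variety -/

/-- the indices of the covers in `𝓛_n` -/
def Idx.periodic : Idx → Prop
  | .one => True
  | .L => True
  | .R => True
  | _ => False

theorem exists_extra {n : ℕ} (hn : 1 ≤ n) {V : Set Sgp} (hV : IsVariety V) (h : RS n ⊂ V) :
    ∃ i, extra n i ∈ V ∧
      ((∀ S ∈ V, Satisfies S.carrier (idPow 2 (n + 2))) → i.periodic) := by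
  obtain ⟨hsub, hne⟩ := h
  have hK : KK n ⊆ V := (subset_Gen (KK n)).trans hsub
  by_cases h1 : ∀ S ∈ V, Satisfies S.carrier (idPow 2 (n + 2))
  · by_cases h2 : ∀ S ∈ V, Satisfies S.carrier (idII n)
    · obtain ⟨S, hS, hSn⟩ := Set.not_subset.1 hne
      rw [mem_RS hn] at hSn
      have h3 : ¬ Satisfies S.carrier (idIII n) := fun h3 => hSn ⟨h1 S hS, h2 S hS, h3⟩
      rcases caseC hn (h1 S hS) (h2 S hS) h3 with hL | hR
      · refine ⟨.L, ?_, fun _ => trivial⟩
        rw [mem_iff hV]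
        intro e he
        exact satL hL (he S hS) (he _ (hK B2_mem))
      · refine ⟨.R, ?_, fun _ => trivial⟩
        rw [mem_iff hV]
        intro e he
        exact satR hR (he S hS) (he _ (hK B2_mem))
    · push_neg at h2
      exact ⟨.one, caseB hn hV hsub h1 h2, fun _ => trivial⟩
  · have h1' := h1
    push_neg at h1'
    obtain ⟨S, hS, hfail⟩ := h1'
    rcases caseA hn hV hS hfail with h | ⟨p, h⟩
    · exact ⟨.N, h, fun h' => absurd h' h1⟩
    · exact ⟨.P p, h, fun h' => absurd h' h1⟩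

/-! ### The covers -/

theorem Cov_holds {n : ℕ} {i : Idx} {e : Identity} :
    (∀ S ∈ Cov n i, Satisfies S.carrier e) ↔
      (∀ S ∈ KK n, Satisfies S.carrier e) ∧ Satisfies (extra n i).carrier e := by
  unfold Cov Join
  rw [Gen_holds]
  constructor
  · intro h
    refine ⟨fun S hS => h S (Or.inl (subset_Gen _ hS)), ?_⟩
    exact h (extra n i) (Or.inr (subset_Gen _ rfl))
  · rintro ⟨h1, h2⟩ S (hS | hS)
    · exact hS e h1
    · exact hS e (fun T hT => by
        have : T = extra n i := hT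
        rw [this]; exact h2)

theorem isVariety_Cov (n : ℕ) (i : Idx) : IsVariety (Cov n i) := isVariety_Gen _

theorem extra_mem (n : ℕ) (i : Idx) : extra n i ∈ Cov n i :=
  subset_Gen _ (Or.inr (subset_Gen _ rfl))

theorem RS_sub (n : ℕ) (i : Idx) : RS n ⊆ Cov n i := fun _ hS => subset_Gen _ (Or.inl hS)

theorem RS_ssub {n : ℕ} (hn : 1 ≤ n) (i : Idx) : RS n ⊂ Cov n i :=
  ⟨RS_sub n i, fun h => extra_not_mem hn i (h (extra_mem n i))⟩

theorem Cov_le {n : ℕ} {i : Idx} {V : Set Sgp} (hV : IsVariety V) (h : RS n ⊆ V)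
    (hi : extra n i ∈ V) : Cov n i ⊆ V := by
  apply Gen_le hV
  rintro S (hS | hS)
  · exact h hS
  · refine Gen_le hV ?_ hS
    intro T hT
    have : T = extra n i := hT
    rw [this]; exact hi

theorem mem_Cov_iff {n : ℕ} (hn : 1 ≤ n) {i j : Idx} (h : extra n j ∈ Cov n i) : i = j := by
  by_contra hij
  obtain ⟨h1, h2, h3⟩ := sep hn i j hij
  exact h3 (Cov_holds.2 ⟨h1, h2⟩ _ h)

theorem Cov_inj {n : ℕ} (hn : 1 ≤ n) : Function.Injective (Cov n) := by
  intro i j h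
  apply mem_Cov_iff hn
  rw [h]; exact extra_mem n j

theorem cover_all {n : ℕ} (hn : 1 ≤ n) (V : Set Sgp) :
    IsCover AllVarieties (RS n) V ↔ ∃ i, V = Cov n i := by
  constructor
  · rintro ⟨hV, hlt, hmin⟩
    obtain ⟨i, hi, _⟩ := exists_extra hn hV hlt
    refine ⟨i, ?_⟩
    by_contra hne
    have hle : Cov n i ⊆ V := Cov_le hV hlt.1 hi
    exact hmin (Cov n i) (isVariety_Cov n i) ⟨RS_ssub hn i,
      ⟨hle, fun h => hne (Set.Subset.antisymm h hle)⟩⟩
  · rintro ⟨i, rfl⟩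
    refine ⟨isVariety_Cov n i, RS_ssub hn i, ?_⟩
    rintro W hW ⟨h1, h2⟩
    obtain ⟨j, hj, _⟩ := exists_extra hn hW h1
    have hij := mem_Cov_iff hn (h2.1 hj)
    subst hij
    exact h2.2 (Cov_le hW h1.1 hj)

theorem Cov_periodic {n : ℕ} {i : Idx} (hi : i.periodic) :
    Cov n i ∈ VarietiesOfType n := by
  refine ⟨isVariety_Cov n i, ?_⟩
  have h := (Cov_holds (n := n) (i := i) (e := idPow 2 (n + 2))).2 ⟨fun S hS => KK_I hS, ?_⟩
  · exact fun S hS => sat_pow.1 (h S hS)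
  · match i, hi with
    | .one, _ => exact pow_of_stab T1_stab
    | .L, _ => exact pow_of_stab TL_stab
    | .R, _ => exact pow_of_stab TR_stab

theorem cover_type {n : ℕ} (hn : 1 ≤ n) (V : Set Sgp) :
    IsCover (VarietiesOfType n) (RS n) V ↔
      V = Cov n .one ∨ V = Cov n .L ∨ V = Cov n .R := by
  have hiff : (V = Cov n .one ∨ V = Cov n .L ∨ V = Cov n .R) ↔
      ∃ i : Idx, i.periodic ∧ V = Cov n i := by
    constructor
    · rintro (h | h | h)
      · exact ⟨.one, trivial, h⟩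
      · exact ⟨.L, trivial, h⟩
      · exact ⟨.R, trivial, h⟩
    · rintro ⟨i, hi, h⟩
      match i, hi with
      | .one, _ => exact Or.inl h
      | .L, _ => exact Or.inr (Or.inl h)
      | .R, _ => exact Or.inr (Or.inr h)
  rw [hiff]
  constructor
  · rintro ⟨⟨hV, hVp⟩, hlt, hmin⟩
    obtain ⟨i, hi, hper⟩ := exists_extra hn hV hlt
    have hip := hper (fun S hS => sat_pow.2 (hVp S hS))
    refine ⟨i, hip, ?_⟩
    by_contra hne
    have hle : Cov n i ⊆ V := Cov_le hV hlt.1 hi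
    exact hmin (Cov n i) (Cov_periodic hip) ⟨RS_ssub hn i,
      ⟨hle, fun h => hne (Set.Subset.antisymm h hle)⟩⟩
  · rintro ⟨i, hi, rfl⟩
    refine ⟨Cov_periodic hi, RS_ssub hn i, ?_⟩
    rintro W hW ⟨h1, h2⟩
    obtain ⟨j, hj, _⟩ := exists_extra hn hW.1 h1
    have hij := mem_Cov_iff hn (h2.1 hj)
    subst hij
    exact h2.2 (Cov_le hW.1 h1.1 hj)

theorem contains_cover {n : ℕ} (hn : 1 ≤ n) {V : Set Sgp} (hV : IsVariety V) (h : RS n ⊂ V) :
    ∃ i, Cov n i ⊆ V := by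
  obtain ⟨i, hi, _⟩ := exists_extra hn hV h
  exact ⟨i, Cov_le hV h.1 hi⟩

theorem RS_basis {n : ℕ} (hn : 1 ≤ n) :
    RS n = Models {idPow 2 (n + 2), idII n, idIII n} := by
  ext S
  rw [mem_RS hn]
  constructor
  · rintro ⟨h1, h2, h3⟩ e he
    rcases he with rfl | rfl | rfl
    · exact h1
    · exact h2
    · exact h3
  · intro h
    exact ⟨h _ (by simp), h _ (by simp), h _ (by simp)⟩

end RSCov
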