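import Pool.Agent.Helper966.RS.Defs
import Pool.Agent.Helper966.RS.Full

namespace RSCov

open FreeSemigroup

/-! ### Words as lists, bridging to `WithOne S` -/

/-- the word as a nonempty list -/
def toL (u : FreeSemigroup ℕ) : List ℕ := u.head :: u.tail

theorem toL_mul (u v : FreeSemigroup ℕ) : toL (u * v) = toL u ++ toL v := rfl

theorem toL_of (a : ℕ) : toL (of a) = [a] := rfl

theorem toL_inj {u v : FreeSemigroup ℕ} (h : toL u = toL v) : u = v := by
  simp only [toL, List.cons.injEq] at h
  exact FreeSemigroup.ext h.1 h.2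

section

variable {S : Type} [Semigroup S]

/-- the coercion of a valuation -/
def cw (f : ℕ → S) : ℕ → WithOne S := fun i => (f i : WithOne S)

theorem coe_lift (f : ℕ → S) (u : FreeSemigroup ℕ) :
    ((lift f u : S) : WithOne S) = ev (cw f) (toL u) := by
  induction u with
  | ih1 x => simp [toL, cw]
  | ih2 x y hx hy => rw [map_mul, WithOne.coe_mul, hx, hy, toL_mul, ev_append]

theorem coe_spow (a : S) (k : ℕ) :
    ((spow a (k + 1) : S) : WithOne S) = (a : WithOne S) ^ (k + 1) := by
  induction k with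
  | zero => simp [spow]
  | succ k ih => rw [spow, WithOne.coe_mul, ih, ← pow_succ]

theorem map_spow {T : Type} [Semigroup T] (φ : S →ₙ* T) (a : S) (k : ℕ) :
    φ (spow a k) = spow (φ a) k := by
  induction k using spow.induct with
  | case1 => rfl
  | case2 => rfl
  | case3 k ih => rw [spow, map_mul, ih, spow]

end

/-! ### The identities -/

/-- letters -/
def X : FreeSemigroup ℕ := of 0
def Y : FreeSemigroup ℕ := of 1
def Z : FreeSemigroup ℕ := of 2
def W : FreeSemigroup ℕ := of 3

/-- `x^a ≈ x^b` -/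
def idPow (a b : ℕ) : Identity := (spow X a, spow X b)
/-- `xyx ≈ (xy)^(k+1) x` -/
def idII (k : ℕ) : Identity := (X * Y * X, spow (X * Y) (k + 1) * X)
/-- `xyx(zx)^n ≈ x(zx)^n yx` -/
def idIII (n : ℕ) : Identity := (X * Y * X * spow (Z * X) n, X * spow (Z * X) n * Y * X)
/-- `t xyx(zx)^n ≈ t x(zx)^n yx` -/
def idIIIl (n : ℕ) : Identity :=
  (W * X * Y * X * spow (Z * X) n, W * X * spow (Z * X) n * Y * X)
/-- `xyx(zx)^n t ≈ x(zx)^n yx t` -/
def idIIIr (n : ℕ) : Identity :=
  (X * Y * X * spow (Z * X) n * W, X * spow (Z * X) n * Y * X * W)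

/-- the valuation `0 ↦ x, 1 ↦ y, 2 ↦ z, 3.. ↦ w` -/
def val4 {S : Type} (x y z w : S) : ℕ → S
  | 0 => x
  | 1 => y
  | 2 => z
  | _ => w

section

variable {S : Type} [Semigroup S]

theorem sat_pow {a b : ℕ} : Satisfies S (idPow a b) ↔ ∀ x : S, spow x a = spow x b := by
  constructor
  · intro h x
    have := h (fun _ => x)
    simpa [idPow, map_spow, X] using this
  · intro h f
    simpa [idPow, map_spow, X] using h (f 0)

theorem sat_II {k : ℕ} : Satisfies S (idII k) ↔
    ∀ x y : S, x * y * x = spow (x * y) (k + 1) * x := by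
  constructor
  · intro h x y
    have := h (val4 x y y y)
    simpa [idII, map_spow, X, Y, val4] using this
  · intro h f
    simpa [idII, map_spow, X, Y] using h (f 0) (f 1)

theorem sat_III {n : ℕ} : Satisfies S (idIII n) ↔
    ∀ x y z : S, x * y * x * spow (z * x) n = x * spow (z * x) n * y * x := by
  constructor
  · intro h x y z
    have := h (val4 x y z z)
    simpa [idIII, map_spow, X, Y, Z, val4] using this
  · intro h f
    simpa [idIII, map_spow, X, Y, Z] using h (f 0) (f 1) (f 2)

theorem sat_IIIl {n : ℕ} : Satisfies S (idIIIl n) ↔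
    ∀ t x y z : S, t * x * y * x * spow (z * x) n = t * x * spow (z * x) n * y * x := by
  constructor
  · intro h t x y z
    have := h (val4 x y z t)
    simpa [idIIIl, map_spow, X, Y, Z, W, val4] using this
  · intro h f
    simpa [idIIIl, map_spow, X, Y, Z, W] using h (f 3) (f 0) (f 1) (f 2)

theorem sat_IIIr {n : ℕ} : Satisfies S (idIIIr n) ↔
    ∀ t x y z : S, x * y * x * spow (z * x) n * t = x * spow (z * x) n * y * x * t := by
  constructor
  · intro h t x y z
    have := h (val4 x y z t)
    simpa [idIIIr, map_spow, X, Y, Z, W, val4] using this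
  · intro h f
    simpa [idIIIr, map_spow, X, Y, Z, W] using h (f 3) (f 0) (f 1) (f 2)

/-! ### The identities in `WithOne S` -/

theorem one_or_coe (a : WithOne S) : a = 1 ∨ ∃ s : S, a = (s : WithOne S) :=
  WithOne.cases_on a (Or.inl rfl) (fun s => Or.inr ⟨s, rfl⟩)

variable {n : ℕ}

theorem H1_of (h1 : Satisfies S (idPow 2 (n + 2))) (h2 : Satisfies S (idII n)) (x : S)
    (y : WithOne S) : (x : WithOne S) * y * x = x * (y * x) ^ (n + 1) := by
  rcases one_or_coe y with rfl | ⟨y, rfl⟩
  · have := congrArg (fun s : S => (s : WithOne S)) (sat_pow.1 h1 x)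
    rw [coe_spow x 1, coe_spow x (n + 1)] at this
    rw [mul_one, one_mul, ← pow_succ', ← this, pow_two]
  · have := congrArg (fun s : S => (s : WithOne S)) (sat_II.1 h2 x y)
    simp only [WithOne.coe_mul, coe_spow] at this
    rw [this, mul_pow_slide]

theorem H2_of (hn : 1 ≤ n) (h1 : Satisfies S (idPow 2 (n + 2))) (h2 : Satisfies S (idII n))
    (h3 : Satisfies S (idIII n)) (x : S) (y z : WithOne S) :
    (x : WithOne S) * y * x * (z * x) ^ n = x * (z * x) ^ n * y * x := by
  obtain ⟨m, rfl⟩ : ∃ m, n = m + 1 := ⟨n - 1, by omega⟩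
  have key : ∀ y z : S, (x : WithOne S) * y * x * ((z : WithOne S) * x) ^ (m + 1)
      = x * (z * x) ^ (m + 1) * y * x := by
    intro y z
    have := congrArg (fun s : S => (s : WithOne S)) (sat_III.1 h3 x y z)
    simpa only [WithOne.coe_mul, coe_spow] using this
  have hx2 : (x : WithOne S) * x = x * (x : WithOne S) ^ (m + 1 + 1) := by
    have := H1_of h1 h2 x 1
    simpa using this
  rcases one_or_coe y with rfl | ⟨y, rfl⟩
  · rcases one_or_coe z with rfl | ⟨z, rfl⟩
    · simp only [mul_one, one_mul]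
      simp only [← pow_succ, ← pow_succ']
      rw [mul_assoc, ← pow_succ', ← pow_succ']
    · have k1 := key (spow x (m + 1)) z
      rw [coe_spow] at k1
      have hz : ((z : WithOne S) * x) ^ (m + 1) = (z * x) ^ m * z * x := by
        rw [pow_succ, mul_assoc]
      calc (x : WithOne S) * 1 * x * (z * x) ^ (m + 1)
          = (x * x) * (z * x) ^ (m + 1) := by rw [mul_one]
        _ = (x * (x : WithOne S) ^ (m + 1) * x) * (z * x) ^ (m + 1) := by
            rw [hx2, pow_succ _ (m + 1)]; simp only [mul_assoc]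
        _ = x * (z * x) ^ (m + 1) * (x : WithOne S) ^ (m + 1) * x := k1
        _ = x * (z * x) ^ (m + 1) * 1 * x := by
            rw [mul_assoc _ _ (x : WithOne S), ← pow_succ, hz, mul_one]
            calc (x : WithOne S) * ((z * x) ^ m * z * x) * (x : WithOne S) ^ (m + 1 + 1)
                = x * ((z * x) ^ m * z) * (x * (x : WithOne S) ^ (m + 1 + 1)) := by
                  simp only [mul_assoc]
              _ = _ := by rw [← hx2]; simp only [mul_assoc]
  · rcases one_or_coe z with rfl | ⟨z, rfl⟩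
    · have k1 := key y x
      have hp : (x : WithOne S) * (x * x) ^ (m + 1) = x * (x : WithOne S) ^ (m + 1) := by
        have : ∀ j, (x : WithOne S) ^ (2 + j) = (x : WithOne S) ^ (m + 1 + 2 + j) := by
          intro j
          rw [pow_add, pow_add _ (m + 1 + 2), pow_two, hx2, ← pow_succ']
        rw [← pow_two, ← pow_mul, ← pow_succ', ← pow_succ']
        have := this m
        rw [show m + 1 + 1 = 2 + m by omega, this]
        congr 1; omega
      simp only [one_mul]
      rw [← hp, mul_assoc, hp, ← hp, ← mul_assoc]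
      exact k1
    · exact key y z

theorem good_of (hn : 1 ≤ n) (h1 : Satisfies S (idPow 2 (n + 2))) (h2 : Satisfies S (idII n))
    (h3 : Satisfies S (idIII n)) (f : ℕ → S) : Good (cw f) n where
  pos := hn
  h1 b y := H1_of h1 h2 (f b) y
  h2 b y z := H2_of hn h1 h2 h3 (f b) y z

end

/-! ### `0`-simple semigroups satisfying `x² ≈ x^(n+2)` -/

/-- the generating class of `RS_n`. -/
def KK (n : ℕ) : Set Sgp :=
  {S | IsZeroSimple S.carrier ∧ ∀ x : S.carrier, spow x 2 = spow x (n + 2)}

theorem RS_eq (n : ℕ) : RS n = Gen (KK n) := rfl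

section

variable {S : Type} [Semigroup S]

theorem zs_mul {z : S} (hz : ∀ a : S, z * a = z ∧ a * z = z) (hne : ∃ a b : S, a * b ≠ z)
    (hI : ∀ I : Set S, I.Nonempty → (∀ a ∈ I, ∀ s : S, s * a ∈ I ∧ a * s ∈ I) →
      I = {z} ∨ I = Set.univ) {a : S} (ha : a ≠ z) (b : S) : ∃ p q, b = p * a * q := by
  have h1 : ({b | ∃ p q, b = p * a * q} : Set S) = {z} ∨
      ({b | ∃ p q, b = p * a * q} : Set S) = Set.univ := by
    apply hI
    · exact ⟨a * a * a, a, a, rfl⟩
    · rintro _ ⟨p, q, rfl⟩ s
      exact ⟨⟨s * p, q, by simp only [mul_assoc]⟩, ⟨p, q * s, by simp only [mul_assoc]⟩⟩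
  rcases h1 with h1 | h1
  · exfalso
    have h2 : ({c | ∀ p q, p * c * q = z} : Set S) = {z} ∨
        ({c | ∀ p q, p * c * q = z} : Set S) = Set.univ := by
      apply hI
      · exact ⟨z, fun p q => by rw [(hz p).2, (hz q).1]⟩
      · intro c hc s
        refine ⟨fun p q => ?_, fun p q => ?_⟩
        · have := hc (p * s) q
          simpa only [mul_assoc] using this
        · have := hc p (s * q)
          simpa only [mul_assoc] using this
    have ha' : a ∈ ({c | ∀ p q, p * c * q = z} : Set S) := by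
      intro p q
      have : p * a * q ∈ ({b | ∃ p q, b = p * a * q} : Set S) := ⟨p, q, rfl⟩
      rw [h1] at this
      exact this
    rcases h2 with h2 | h2
    · rw [h2] at ha'
      exact ha ha'
    · have h3 : ∀ p c q : S, p * c * q = z := by
        intro p c q
        have : c ∈ ({c | ∀ p q, p * c * q = z} : Set S) := by rw [h2]; trivial
        exact this p q
      obtain ⟨c, d, hcd⟩ := hne
      have h4 : ({e | ∃ s t, e = s * t} : Set S) = {z} ∨
          ({e | ∃ s t, e = s * t} : Set S) = Set.univ := by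
        apply hI
        · exact ⟨a * a, a, a, rfl⟩
        · rintro _ ⟨s, t, rfl⟩ r
          exact ⟨⟨r, s * t, rfl⟩, ⟨s * t, r, rfl⟩⟩
      rcases h4 with h4 | h4
      · have : c * d ∈ ({e | ∃ s t, e = s * t} : Set S) := ⟨c, d, rfl⟩
        rw [h4] at this
        exact hcd this
      · have : c ∈ ({e | ∃ s t, e = s * t} : Set S) := by rw [h4]; trivial
        obtain ⟨s, t, rfl⟩ := this
        exact hcd (h3 s t d)
  · have : b ∈ ({b | ∃ p q, b = p * a * q} : Set S) := by rw [h1]; trivial
    exact this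

theorem absL {M : Type*} [Monoid M] {n : ℕ} {g A B : M} (hg : g ^ 2 = g ^ (n + 2))
    (h : A = g * A * B) : g ^ n * A = A := by
  have h2 : A = g ^ 2 * A * B ^ 2 := by
    calc A = g * A * B := h
      _ = g * (g * A * B) * B := congrArg (fun t => g * t * B) h
      _ = g ^ 2 * A * B ^ 2 := by rw [pow_two, pow_two]; simp only [mul_assoc]
  calc g ^ n * A = g ^ n * (g ^ 2 * A * B ^ 2) := by rw [← h2]
    _ = g ^ (n + 2) * A * B ^ 2 := by rw [pow_add]; simp only [mul_assoc]
    _ = A := by rw [← hg, ← h2]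

theorem absR {M : Type*} [Monoid M] {n : ℕ} {g A B : M} (hg : g ^ 2 = g ^ (n + 2))
    (h : A = B * A * g) : A * g ^ n = A := by
  have h2 : A = B ^ 2 * A * g ^ 2 := by
    calc A = B * A * g := h
      _ = B * (B * A * g) * g := congrArg (fun t => B * t * g) h
      _ = B ^ 2 * A * g ^ 2 := by rw [pow_two, pow_two]; simp only [mul_assoc]
  calc A * g ^ n = (B ^ 2 * A * g ^ 2) * g ^ n := by rw [← h2]
    _ = B ^ 2 * A * g ^ (n + 2) := by rw [add_comm n 2, pow_add]; simp only [mul_assoc]
    _ = A := by rw [← hg, ← h2]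

/-- In a `0`-simple semigroup with `x² ≈ x^(n+2)`, either `xyx = 0` or `(xy)^n x = x`. -/
theorem zs_key {n : ℕ} (hn : 1 ≤ n) {z : S} (hz : ∀ a : S, z * a = z ∧ a * z = z)
    (hne : ∃ a b : S, a * b ≠ z)
    (hI : ∀ I : Set S, I.Nonempty → (∀ a ∈ I, ∀ s : S, s * a ∈ I ∧ a * s ∈ I) →
      I = {z} ∨ I = Set.univ) (hp : ∀ x : S, spow x 2 = spow x (n + 2)) (x y : S) :
    x * y * x = z ∨ ((x : WithOne S) * y) ^ n * x = x := by
  by_cases h : x * y * x = z
  · exact Or.inl h
  right
  obtain ⟨m, rfl⟩ : ∃ m, n = m + 1 := ⟨n - 1, by omega⟩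
  obtain ⟨p, q, hpq⟩ := zs_mul hz hne hI h x
  have hp' : ∀ g : S, (g : WithOne S) ^ 2 = (g : WithOne S) ^ (m + 1 + 2) := by
    intro g
    have := congrArg (fun s : S => (s : WithOne S)) (hp g)
    simpa only [coe_spow g 1, coe_spow g (m + 1 + 1)] using this
  have e0 : (x : WithOne S) = p * x * ((y : WithOne S) * x * q) := by
    have := congrArg (fun s : S => (s : WithOne S)) hpq
    simpa only [WithOne.coe_mul, mul_assoc] using this
  have g2 := hp' (y * x * q)
  simp only [WithOne.coe_mul] at g2
  have e1 := absR g2 e0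
  have e2 : (x : WithOne S) = ((x : WithOne S) * y) * x * (q * ((y : WithOne S) * x * q) ^ m) := by
    conv_lhs => rw [← e1]
    rw [pow_succ']; simp only [mul_assoc]
  have g3 := hp' (x * y)
  simp only [WithOne.coe_mul] at g3
  exact absL g3 e2

theorem coe_inj' {a b : S} (h : (a : WithOne S) = b) : a = b := WithOne.coe_inj.1 h

end

theorem KK_I {n : ℕ} {S : Sgp} (h : S ∈ KK n) : Satisfies S.carrier (idPow 2 (n + 2)) :=
  sat_pow.2 h.2

theorem KK_II {n : ℕ} (hn : 1 ≤ n) {S : Sgp} (h : S ∈ KK n) : Satisfies S.carrier (idII n) := by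
  obtain ⟨⟨z, hz, hne, hI⟩, hp⟩ := h
  rw [sat_II]
  intro x y
  have hs : (((spow (x * y) (n + 1) * x : S.carrier)) : WithOne S.carrier)
      = (x * y) * (((x : WithOne S.carrier) * y) ^ n * x) := by
    rw [WithOne.coe_mul, coe_spow, WithOne.coe_mul, pow_succ']; simp only [mul_assoc]
  rcases zs_key hn hz hne hI hp x y with h | h
  · rw [h]
    obtain ⟨m, rfl⟩ : ∃ m, n = m + 1 := ⟨n - 1, by omega⟩
    show z = spow (x * y) (m + 2) * x
    rw [spow, mul_assoc, h, (hz _).2]
  · apply coe_inj'
    rw [hs, h]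
    simp [WithOne.coe_mul]

theorem KK_III {n : ℕ} (hn : 1 ≤ n) {S : Sgp} (h : S ∈ KK n) :
    Satisfies S.carrier (idIII n) := by
  obtain ⟨⟨z, hz, hne, hI⟩, hp⟩ := h
  rw [sat_III]
  intro x y w
  obtain ⟨m, rfl⟩ : ∃ m, n = m + 1 := ⟨n - 1, by omega⟩
  rcases zs_key hn hz hne hI hp x w with h | h
  · -- `x w x = 0`
    have h1 : ∀ k, x * spow (w * x) (k + 1) = z := by
      intro k
      induction k with
      | zero => simp only [zero_add, spow]; rw [← mul_assoc, h]
      | succ k ih => rw [spow, ← mul_assoc, ih, (hz _).1]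
    rw [mul_assoc (x * y), h1, (hz _).2, (hz _).1, (hz _).1]
  · have h1 : (x : WithOne S.carrier) * ((w : WithOne S.carrier) * x) ^ (m + 1) = x := by
      rw [← mul_pow_slide]; exact h
    apply coe_inj'
    simp only [WithOne.coe_mul, coe_spow]
    rw [mul_assoc (_ * _), h1]

/-! ### Rees matrix semigroups as test semigroups -/

/-- the Rees matrix semigroup with zero over `G` with both index sets `Option ℕ`. -/
def RMat (G : Type) (_P : Option ℕ → Option ℕ → Option G) : Type :=
  Option (Option ℕ × G × Option ℕ)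

section RMat

variable {G : Type} [Group G] {P : Option ℕ → Option ℕ → Option G}

/-- nonzero elements -/
def RMat.el (P : Option ℕ → Option ℕ → Option G) (i : Option ℕ) (g : G) (l : Option ℕ) :
    RMat G P := some (i, g, l)

/-- zero -/
def RMat.z (P : Option ℕ → Option ℕ → Option G) : RMat G P := none

theorem RMat.cases' (s : RMat G P) : s = RMat.z P ∨ ∃ i g l, s = RMat.el P i g l := by
  rcases s with _ | ⟨i, g, l⟩
  · exact Or.inl rfl
  · exact Or.inr ⟨i, g, l, rfl⟩

instance : Mul (RMat G P) := ⟨fun s t => match s, t with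
  | some (i, g, l), some (j, h, m) =>
    match P l j with
    | some p => RMat.el P i (g * p * h) m
    | none => RMat.z P
  | _, _ => RMat.z P⟩

theorem RMat.z_mul (s : RMat G P) : RMat.z P * s = RMat.z P := rfl

theorem RMat.mul_z (s : RMat G P) : s * RMat.z P = RMat.z P := by
  rcases RMat.cases' s with rfl | ⟨i, g, l, rfl⟩ <;> rfl

theorem RMat.el_mul_some {i j l m : Option ℕ} {g h p : G} (hp : P l j = some p) :
    RMat.el P i g l * RMat.el P j h m = RMat.el P i (g * p * h) m := by
  show (match P l j with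
    | some p => RMat.el P i (g * p * h) m
    | none => RMat.z P) = _
  rw [hp]

theorem RMat.el_mul_none {i j l m : Option ℕ} {g h : G} (hp : P l j = none) :
    RMat.el P i g l * RMat.el P j h m = RMat.z P := by
  show (match P l j with
    | some p => RMat.el P i (g * p * h) m
    | none => RMat.z P) = _
  rw [hp]

instance : Semigroup (RMat G P) where
  mul_assoc := by
    intro a b c
    rcases RMat.cases' a with rfl | ⟨i, g, l, rfl⟩
    · simp only [RMat.z_mul]
    rcases RMat.cases' b with rfl | ⟨j, h, m, rfl⟩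
    · simp only [RMat.z_mul, RMat.mul_z]
    rcases RMat.cases' c with rfl | ⟨k, q, r, rfl⟩
    · simp only [RMat.mul_z]
    cases h1 : P l j with
    | none =>
      rw [RMat.el_mul_none h1, RMat.z_mul]
      cases h2 : P m k with
      | none => rw [RMat.el_mul_none h2, RMat.mul_z]
      | some p => rw [RMat.el_mul_some h2, RMat.el_mul_none h1]
    | some p =>
      rw [RMat.el_mul_some h1]
      cases h2 : P m k with
      | none => rw [RMat.el_mul_none h2, RMat.el_mul_none h2, RMat.mul_z]
      | some p' =>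
        rw [RMat.el_mul_some h2, RMat.el_mul_some h2, RMat.el_mul_some h1]
        simp only [mul_assoc]

theorem RMat.el_ne_z (i : Option ℕ) (g : G) (l : Option ℕ) : RMat.el P i g l ≠ RMat.z P := by
  intro h; cases h

theorem RMat.el_inj {i i' l l' : Option ℕ} {g g' : G} (h : RMat.el P i g l = RMat.el P i' g' l') :
    i = i' ∧ g = g' ∧ l = l' := by
  have h' : (some (i, g, l) : Option (Option ℕ × G × Option ℕ)) = some (i', g', l') := h
  simpa using h'

theorem RMat.mem_KK {n : ℕ} (hG : ∀ g : G, g ^ n = 1) (h1 : ∀ i, P none i = some 1)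
    (h2 : ∀ i, P i none = some 1) : (⟨RMat G P⟩ : Sgp) ∈ KK n := by
  refine ⟨⟨RMat.z P, fun a => ⟨RMat.z_mul a, RMat.mul_z a⟩, ?_, ?_⟩, ?_⟩
  · refine ⟨RMat.el P none 1 none, RMat.el P none 1 none, ?_⟩
    rw [RMat.el_mul_some (h1 none)]
    exact RMat.el_ne_z _ _ _
  · intro I hne hI
    by_cases h : ∃ i g l, RMat.el P i g l ∈ I
    · right
      obtain ⟨i, g, l, h⟩ := h
      have hall : ∀ j q m, RMat.el P j q m ∈ I := by
        intro j q m
        have a1 := (hI _ h (RMat.el P j (q * g⁻¹) none)).1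
        rw [RMat.el_mul_some (h1 i)] at a1
        have a2 := (hI _ a1 (RMat.el P none 1 m)).2
        rw [RMat.el_mul_some (h2 l)] at a2
        simpa using a2
      apply Set.eq_univ_of_forall
      intro s
      rcases RMat.cases' (P := P) s with rfl | ⟨j, q, m, rfl⟩
      · have := (hI _ h (RMat.z P)).1
        rwa [RMat.z_mul] at this
      · exact hall j q m
    · left
      obtain ⟨s, hs⟩ := hne
      have hz : ∀ s ∈ I, s = RMat.z P := by
        intro s hs
        rcases RMat.cases' (P := P) s with rfl | ⟨j, q, m, rfl⟩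
        · rfl
        · exact absurd ⟨j, q, m, hs⟩ h
      ext t
      constructor
      · intro ht; exact hz t ht
      · rintro rfl
        rw [← hz s hs]; exact hs
  · intro x
    show spow x 2 = spow x (n + 2)
    rcases RMat.cases' (P := P) x with rfl | ⟨i, g, l, rfl⟩
    · have : ∀ k, spow (RMat.z P) (k + 1) = RMat.z P := by
        intro k
        cases k with
        | zero => rfl
        | succ k => rw [spow, RMat.mul_z]
      rw [this 1, this (n + 1)]
    · cases hp : P l i with
      | none =>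
        have : ∀ k, spow (RMat.el P i g l) (k + 2) = RMat.z P := by
          intro k
          induction k with
          | zero => simp only [zero_add, spow]; exact RMat.el_mul_none hp
          | succ k ih => rw [spow, ih, RMat.z_mul]
        rw [this 0, this n]
      | some p =>
        have : ∀ k, spow (RMat.el P i g l) (k + 1) = RMat.el P i ((g * p) ^ k * g) l := by
          intro k
          induction k with
          | zero => simp [spow]
          | succ k ih =>
            rw [spow, ih, RMat.el_mul_some hp]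
            congr 1
            rw [pow_succ]; simp only [mul_assoc]
        rw [this 1, this (n + 1), pow_succ, pow_zero, one_mul, pow_succ, hG, one_mul]

/-- the sandwich matrix -/
noncomputable def PM (A : Set (ℕ × ℕ)) (φ : ℕ → ℕ → G) : Option ℕ → Option ℕ → Option G
  | some a, some b => open Classical in if (a, b) ∈ A then some (φ a b) else none
  | _, _ => some 1

theorem lift_RM (A : Set (ℕ × ℕ)) (φ : ℕ → ℕ → G) (u : FreeSemigroup ℕ) :
    ((∀ e ∈ pairs (toL u), e ∈ A) → ∀ z, (∃ t, toL u = t ++ [z]) →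
      lift (fun a => RMat.el (PM A φ) (some a) 1 (some a)) u
        = RMat.el (PM A φ) (some u.head) (wt φ (toL u)) (some z)) ∧
    ((¬ ∀ e ∈ pairs (toL u), e ∈ A) →
      lift (fun a => RMat.el (PM A φ) (some a) 1 (some a)) u = RMat.z (PM A φ)) := by
  classical
  induction u with
  | ih1 x =>
    constructor
    · rintro - z ⟨t, ht⟩
      rw [toL_of] at ht
      have : z = x := by
        have := congrArg List.getLast? ht
        simpa using this.symm
      subst this
      simp [toL_of]
    · intro h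
      exact absurd (by simp [toL_of]) h
  | ih2 x y _ ihy =>
    have hp : pairs (toL (of x * y)) = (x, y.head) :: pairs (toL y) := rfl
    have hw : wt φ (toL (of x * y)) = φ x y.head * wt φ (toL y) := wt_cons_cons _ _ _ _
    have hy0 : ∃ z, ∃ t, toL y = t ++ [z] :=
      ⟨(toL y).getLast (by simp [toL]), (toL y).dropLast,
        (List.dropLast_append_getLast _).symm⟩
    constructor
    · intro h z hz
      rw [hp] at h
      have hz' : ∃ t, toL y = t ++ [z] := by
        obtain ⟨t, ht⟩ := hz
        rw [toL_mul, toL_of] at ht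
        exact suffix_ends (l := [x]) (t := t) ht
      have h1 : (x, y.head) ∈ A := h _ (by simp)
      rw [map_mul, ihy.1 (fun e he => h e (by simp [he])) z hz', lift_of,
        RMat.el_mul_some (p := φ x y.head) (by simp [PM, h1]), hw]
      simp
    · intro h
      rw [map_mul, lift_of]
      by_cases h2 : ∀ e ∈ pairs (toL y), e ∈ A
      · have h1 : (x, y.head) ∉ A := by
          intro h1
          apply h
          rw [hp]
          intro e he
          rcases List.mem_cons.1 he with rfl | he
          · exact h1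
          · exact h2 e he
        obtain ⟨z, hz⟩ := hy0
        rw [ihy.1 h2 z hz]
        exact RMat.el_mul_none (by simp [PM, h1])
      · rw [ihy.2 h2, RMat.mul_z]

end RMat

theorem KK_ids {n : ℕ} {u v : FreeSemigroup ℕ} (h : ∀ S ∈ KK n, Satisfies S.carrier (u, v)) :
    u.head = v.head ∧ (∃ z, (∃ t, toL u = t ++ [z]) ∧ (∃ t, toL v = t ++ [z])) ∧
      (∀ e ∈ pairs (toL v), e ∈ pairs (toL u)) ∧
      ∀ (G : Type) [Group G], (∀ g : G, g ^ n = 1) → ∀ φ : ℕ → ℕ → G,
        wt φ (toL u) = wt φ (toL v) := by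
  have last : ∀ w : FreeSemigroup ℕ, ∃ z, ∃ t, toL w = t ++ [z] := fun w =>
    ⟨(toL w).getLast (by simp [toL]), (toL w).dropLast, (List.dropLast_append_getLast _).symm⟩
  obtain ⟨zu, hzu⟩ := last u
  obtain ⟨zv, hzv⟩ := last v
  have key : ∀ (G : Type) [Group G], (∀ g : G, g ^ n = 1) → ∀ φ : ℕ → ℕ → G,
      (u.head = v.head ∧ zu = zv ∧ (∀ e ∈ pairs (toL v), e ∈ pairs (toL u)) ∧
        wt φ (toL u) = wt φ (toL v)) := by
    intro G _ hG φ
    set A : Set (ℕ × ℕ) := {e | e ∈ pairs (toL u)} with hA
    have hm : (⟨RMat G (PM A φ)⟩ : Sgp) ∈ KK n :=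
      RMat.mem_KK hG (fun i => by cases i <;> rfl) (fun i => by cases i <;> rfl)
    have h1 := h _ hm (fun a => RMat.el (PM A φ) (some a) 1 (some a))
    have h2 := (lift_RM A φ u).1 (fun e he => he) zu hzu
    simp only at h1
    rw [h2] at h1
    by_cases h3 : ∀ e ∈ pairs (toL v), e ∈ A
    · have h4 := (lift_RM A φ v).1 h3 zv hzv
      rw [h4] at h1
      obtain ⟨a1, a2, a3⟩ := RMat.el_inj h1
      exact ⟨by simpa using a1, by simpa using a3, h3, a2⟩
    · have h4 := (lift_RM A φ v).2 h3
      rw [h4] at h1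
      exact absurd h1 (RMat.el_ne_z _ _ _)
  have k1 := key Unit (fun g => rfl) (fun _ _ => ())
  refine ⟨k1.1, ⟨zu, hzu, ?_⟩, k1.2.2.1, fun G _ hG φ => (key G hG φ).2.2.2⟩
  rw [k1.2.1]; exact hzv

/-- **Basis theorem**, hard half. -/
theorem basis {n : ℕ} (hn : 1 ≤ n) {S : Type} [Semigroup S]
    (h1 : Satisfies S (idPow 2 (n + 2))) (h2 : Satisfies S (idII n))
    (h3 : Satisfies S (idIII n)) {e : Identity} (he : ∀ T ∈ KK n, Satisfies T.carrier e) :
    Satisfies S e := by
  obtain ⟨u, v⟩ := e
  intro f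
  have he' : ∀ T ∈ KK n, Satisfies T.carrier (v, u) := fun T hT g => (he T hT g).symm
  obtain ⟨a1, ⟨z, a2, a3⟩, a4, a5⟩ := KK_ids he
  obtain ⟨_, _, b4, _⟩ := KK_ids he'
  apply coe_inj'
  rw [coe_lift, coe_lift]
  have hu : toL u = u.head :: u.tail := rfl
  have hv : toL v = u.head :: v.tail := by rw [a1]; rfl
  rw [hv] at a3 a4 b4 a5
  rw [hu] at a2 a4 b4 a5
  simp only
  rw [hv, hu]
  exact (good_of hn h1 h2 h3 f).full _ u.head z u.tail v.tail le_rfl a2 a3
    (fun e => ⟨b4 e, a4 e⟩) a5

end RSCov
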