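import Pool.Agent.Helper966.RS.StepAB

namespace RSCov

open FreeSemigroup

/-! ### Identities of the members of `KK n` -/

section basic

variable {S : Type} [Semigroup S] {n : ℕ}

theorem pow3_of (h : Satisfies S (idPow 2 (n + 2))) : Satisfies S (idPow 3 (n + 3)) := by
  rw [sat_pow] at h ⊢
  intro x
  show spow x 2 * x = spow x (n + 2) * x
  rw [h]

theorem coe_i (h : Satisfies S (idPow 2 (n + 2))) (x : S) :
    (x : WithOne S) ^ 2 = (x : WithOne S) ^ (n + 2) := by
  have := congrArg (fun s : S => (s : WithOne S)) (sat_pow.1 h x)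
  simpa only [coe_spow x 1, coe_spow x (n + 1)] using this

theorem powp_of (h : Satisfies S (idPow 2 (n + 2))) (p : ℕ) :
    Satisfies S (idPow 2 (p * n + 2)) := by
  rw [sat_pow]
  intro x
  apply coe_inj'
  rw [coe_spow x 1, coe_spow x (p * n + 1)]
  have h1 : (x : WithOne S) ^ (2 + n) = (x : WithOne S) ^ 2 := by
    rw [coe_i h x, add_comm]
  have := pow_per h1 p
  rw [show p * n + 1 + 1 = 2 + n * p by ring, this]

theorem IIp_of (hn : 1 ≤ n) (h : Satisfies S (idPow 2 (n + 2))) (h2 : Satisfies S (idII n))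
    {p : ℕ} (hp : 1 ≤ p) : Satisfies S (idII (p * n)) := by
  rw [sat_II] at h2 ⊢
  intro x y
  rw [h2 x y]
  congr 1
  apply coe_inj'
  rw [coe_spow, coe_spow]
  obtain ⟨q, rfl⟩ : ∃ q, p = q + 1 := ⟨p - 1, by omega⟩
  rw [← pow_red hn (coe_i h (x * y)) q]
  congr 1; ring

theorem IIIl_of (h : Satisfies S (idIII n)) : Satisfies S (idIIIl n) := by
  rw [sat_III] at h
  rw [sat_IIIl]
  intro t x y z
  have := congrArg (t * ·) (h x y z)
  simpa only [mul_assoc] using this

theorem IIIr_of (h : Satisfies S (idIII n)) : Satisfies S (idIIIr n) := by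
  rw [sat_III] at h
  rw [sat_IIIr]
  intro t x y z
  have := congrArg (· * t) (h x y z)
  simpa only [mul_assoc] using this

/-- powers in a semigroup with `x³ = x²` -/
theorem spow_cases (x : S) (h : x * x * x = x * x) (hn : 1 ≤ n) :
    spow x n = x ∨ spow x n = x * x := by
  match n, hn with
  | 1, _ => exact Or.inl rfl
  | k + 2, _ => exact Or.inr (spow_stab h k)

theorem pow_of_stab (h : ∀ x : S, x * x * x = x * x) : Satisfies S (idPow 2 (n + 2)) := by
  rw [sat_pow]
  intro x
  rw [spow_stab (h x) n]; rfl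

end basic

/-! ### `T_N` -/

theorem TN_II {k : ℕ} : Satisfies TN (idII k) := by
  rw [sat_II]
  intro x y
  have h1 : ∀ a b c : TN, a * b * c = TN.zero := by decide
  have h2 : ∀ a b : TN, a * b * a = TN.zero := by decide
  match k with
  | 0 => show x * y * x = (x * y) * x; rfl
  | k + 1 => 
    show x * y * x = spow (x * y) (k + 1) * (x * y) * x
    rw [h1, h1]

theorem TN_III {n : ℕ} : Satisfies TN (idIII n) := by
  rw [sat_III]
  intro x y z
  have h1 : ∀ a b c : TN, a * b * c = TN.zero := by decide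
  rw [h1 _ _ (spow (z * x) n), h1 _ _ x]

theorem TN_pow3 {n : ℕ} : Satisfies TN (idPow 3 (n + 3)) := by
  rw [sat_pow]
  intro x
  have h1 : ∀ a b c : TN, a * b * c = TN.zero := by decide
  cases n with
  | zero => rfl
  | succ n =>
    show x * x * x = spow x (n + 2) * x * x
    rw [h1, h1]

theorem TN_not {k : ℕ} (hk : 1 ≤ k) : ¬ Satisfies TN (idPow 2 (k + 2)) := by
  rw [sat_pow]
  intro h
  have h0 := h TN.x
  obtain ⟨m, rfl⟩ : ∃ m, k = m + 1 := ⟨k - 1, by omega⟩
  have h1 : ∀ a b c : TN, a * b * c = TN.zero := by decide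
  have h2 : spow TN.x (m + 1 + 2) = TN.zero := by
    show spow TN.x (m + 1) * TN.x * TN.x = TN.zero
    exact h1 _ _ _
  rw [h2] at h0
  exact absurd h0 (by decide)

/-! ### `T₁` -/

theorem T1_stab : ∀ x : T1, x * x * x = x * x := by decide

theorem T1_III {n : ℕ} (hn : 1 ≤ n) : Satisfies T1 (idIII n) := by
  rw [sat_III]
  intro x y z
  have h1 : ∀ x y z : T1, x * y * x * (z * x) = x * (z * x) * y * x := by decide
  have h2 : ∀ x y z : T1, x * y * x * (z * x * (z * x)) = x * (z * x * (z * x)) * y * x := by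
    decide
  rcases spow_cases (z * x) (T1_stab _) hn with h | h
  · rw [h]; exact h1 x y z
  · rw [h]; exact h2 x y z

theorem T1_not {k : ℕ} (hk : 1 ≤ k) : ¬ Satisfies T1 (idII k) := by
  rw [sat_II]
  intro h
  have h0 := h T1.x T1.y
  obtain ⟨m, rfl⟩ : ∃ m, k = m + 1 := ⟨k - 1, by omega⟩
  rw [spow_stab (T1_stab _)] at h0
  exact absurd h0 (by decide)

/-! ### `T_L` -/

theorem TL_stab : ∀ x : TL, x * x * x = x * x := by decide

theorem TL_II {k : ℕ} : Satisfies TL (idII k) := by
  rw [sat_II]
  intro x y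
  have h2 : ∀ x y : TL, x * y * x = x * y * (x * y) * x := by decide
  match k with
  | 0 => rfl
  | k + 1 => rw [spow_stab (TL_stab _)]; exact h2 x y

theorem TL_sq : ∀ x z : TL, x * (z * x * (z * x)) = x * (z * x) := by decide

theorem TL_key : ∀ t x y z : TL, t * x * y * x * (z * x) = t * x * (z * x) * y * x := by
  decide +kernel

theorem TL_IIIl {n : ℕ} (hn : 1 ≤ n) : Satisfies TL (idIIIl n) := by
  rw [sat_IIIl]
  intro t x y z
  rcases spow_cases (z * x) (TL_stab _) hn with h | h
  · rw [h]; exact TL_key t x y z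
  · rw [h, mul_assoc (t * x * y), mul_assoc t x (z * x * (z * x)), TL_sq, ← mul_assoc,
      ← mul_assoc t]
    exact TL_key t x y z

theorem TL_not {n : ℕ} (hn : 1 ≤ n) : ¬ Satisfies TL (idIII n) := by
  rw [sat_III]
  intro h
  have h0 := h TL.c (TL.el true false false) (TL.el true true false)
  rcases spow_cases (TL.el true true false * TL.c) (TL_stab _) hn with h | h
  · rw [h] at h0; exact absurd h0 (by decide)
  · rw [h] at h0; exact absurd h0 (by decide)

theorem TL_notr {n : ℕ} (hn : 1 ≤ n) : ¬ Satisfies TL (idIIIr n) := by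
  rw [sat_IIIr]
  intro h
  have h0 := h (TL.el true false false) TL.c (TL.el true false false) (TL.el true true false)
  rcases spow_cases (TL.el true true false * TL.c) (TL_stab _) hn with h | h
  · rw [h] at h0; exact absurd h0 (by decide)
  · rw [h] at h0; exact absurd h0 (by decide)

/-! ### `T_R` -/

theorem unop_spow {S : Type} [Semigroup S] (a : Sᵐᵒᵖ) (k : ℕ) :
    (spow a k).unop = spow a.unop k := by
  apply coe_inj'
  match k with
  | 0 => rfl
  | k + 1 =>
    rw [coe_spow]
    induction k with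
    | zero => simp [spow]
    | succ k ih => rw [spow, MulOpposite.unop_mul, WithOne.coe_mul, ih, ← pow_succ']

theorem TR_stab : ∀ x : TLᵐᵒᵖ, x * x * x = x * x := by
  intro x
  apply MulOpposite.unop_injective
  simp only [MulOpposite.unop_mul]
  rw [← mul_assoc]
  exact TL_stab _

theorem TR_II {k : ℕ} : Satisfies TLᵐᵒᵖ (idII k) := by
  rw [sat_II]
  intro x y
  have h2 : ∀ x y : TL, x * (y * x) = x * (y * x * (y * x)) := by decide
  match k with
  | 0 => rfl
  | k + 1 =>
    rw [spow_stab (TR_stab _)]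
    apply MulOpposite.unop_injective
    simp only [MulOpposite.unop_mul]
    exact h2 _ _

theorem TR_IIIr {n : ℕ} (hn : 1 ≤ n) : Satisfies TLᵐᵒᵖ (idIIIr n) := by
  rw [sat_IIIr]
  intro t x y z
  apply MulOpposite.unop_injective
  simp only [MulOpposite.unop_mul, unop_spow]
  have key : ∀ t x y z : TL, t * (x * z * (x * (y * x))) = t * (x * (y * (x * z * x))) := by
    decide +kernel
  have key2 : ∀ x z : TL, x * z * (x * z) * x = x * z * x := by decide
  rcases spow_cases (x.unop * z.unop) (TL_stab _) hn with h | h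
  · rw [h]; exact key _ _ _ _
  · rw [h, ← mul_assoc (x.unop * z.unop * (x.unop * z.unop)), key2, mul_assoc (x.unop * z.unop)]
    exact key _ _ _ _

theorem TR_not {n : ℕ} (hn : 1 ≤ n) : ¬ Satisfies TLᵐᵒᵖ (idIII n) := by
  rw [sat_III]
  intro h
  have h0 := congrArg MulOpposite.unop (h (MulOpposite.op TL.c)
    (MulOpposite.op (TL.el true false false)) (MulOpposite.op (TL.el true true false)))
  simp only [MulOpposite.unop_mul, unop_spow, MulOpposite.unop_op] at h0
  rcases spow_cases (TL.c * TL.el true true false) (TL_stab _) hn with h | h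
  · rw [h] at h0; exact absurd h0 (by decide)
  · rw [h] at h0; exact absurd h0 (by decide)

theorem TR_notl {n : ℕ} (hn : 1 ≤ n) : ¬ Satisfies TLᵐᵒᵖ (idIIIl n) := by
  rw [sat_IIIl]
  intro h
  have h0 := congrArg MulOpposite.unop (h (MulOpposite.op (TL.el true false false))
    (MulOpposite.op TL.c)
    (MulOpposite.op (TL.el true false false)) (MulOpposite.op (TL.el true true false)))
  simp only [MulOpposite.unop_mul, unop_spow, MulOpposite.unop_op] at h0
  rcases spow_cases (TL.c * TL.el true true false) (TL_stab _) hn with h | h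
  · rw [h] at h0; exact absurd h0 (by decide)
  · rw [h] at h0; exact absurd h0 (by decide)

end RSCov
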