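import Pool.Agent.Helper966.RS.StepC

namespace RSCov

open FreeSemigroup

theorem lift_lift {T : Type} [Semigroup T] (g : ℕ → T) (σ : ℕ → FreeSemigroup ℕ)
    (w : FreeSemigroup ℕ) : lift g (lift σ w) = lift (fun a => lift g (σ a)) w := by
  induction w with
  | ih1 x => simp
  | ih2 x y _ ihy => rw [map_mul, map_mul, lift_of, ihy, map_mul, lift_of]

/-! ### Case B : `(i)` holds, `(ii)` fails -/

theorem pow_red {M : Type} [Monoid M] {n : ℕ} (hn : 1 ≤ n) {g : M} (hg : g ^ 2 = g ^ (n + 2))
    (q : ℕ) : g ^ (1 + n * (q + 1)) = g ^ (n + 1) := by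
  induction q with
  | zero => congr 1; omega
  | succ q ih =>
    have h1 : 1 + n * (q + 1 + 1) = (n * (q + 1) - 1) + (n + 2) := by
      have : 1 ≤ n * (q + 1) := Nat.mul_pos hn (Nat.succ_pos q)
      have h2 : n * (q + 1 + 1) = n * (q + 1) + n := by ring
      omega
    have h3 : 1 + n * (q + 1) = (n * (q + 1) - 1) + 2 := by
      have : 1 ≤ n * (q + 1) := Nat.mul_pos hn (Nat.succ_pos q)
      omega
    rw [← ih, h1, h3, pow_add _ _ (n + 2), ← hg, ← pow_add]

/-- the valuation for `T₁` -/
def gT : ℕ → T1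
  | 0 => .x
  | 1 => .y
  | _ => .zero

/-- representing words as lists -/
def rl : T1 → List ℕ
  | .x => [0]
  | .y => [1]
  | .xy => [0, 1]
  | .yx => [1, 0]
  | .xyx => [0, 1, 0]
  | .zero => []

/-- representing words -/
def rw1 : T1 → FreeSemigroup ℕ
  | .x => of 0
  | .y => of 1
  | .xy => of 0 * of 1
  | .yx => of 1 * of 0
  | .xyx => of 0 * of 1 * of 0
  | .zero => of 0 * of 0

theorem lift_rw1 (t : T1) : lift gT (rw1 t) = t := by
  cases t <;> rfl

theorem T1_nz (u : FreeSemigroup ℕ) (h : lift gT u ≠ T1.zero) : toL u = rl (lift gT u) := by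
  induction u with
  | ih1 x =>
    match x with
    | 0 => rfl
    | 1 => rfl
    | x + 2 => exact absurd rfl h
  | ih2 x y _ ihy =>
    rw [map_mul, lift_of] at h ⊢
    have hz : ∀ t : T1, t * T1.zero = T1.zero := by decide
    have hy : lift gT y ≠ T1.zero := by
      intro h'; rw [h'] at h; exact h (hz _)
    rw [toL_mul, ihy hy, toL_of]
    generalize lift gT y = t at *
    match x with
    | 0 =>
      have key : ∀ t : T1, T1.x * t ≠ T1.zero → [0] ++ rl t = rl (T1.x * t) := by decide
      exact key t h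
    | 1 =>
      have key : ∀ t : T1, T1.y * t ≠ T1.zero → [1] ++ rl t = rl (T1.y * t) := by decide
      exact key t h
    | x + 2 =>
      have key : ∀ t : T1, T1.zero * t = T1.zero := by decide
      exact absurd (key t) h

theorem alt (N : ℕ) : ∀ l : List ℕ, l.length ≤ N →
    (∀ e ∈ pairs (0 :: l), e = (0, 1) ∨ e = (1, 0)) → (∃ t, 0 :: l = t ++ [0]) →
    ∃ k, l = rep [1, 0] k := by
  induction N with
  | zero =>
    intro l hl _ _
    exact ⟨0, by simpa using hl⟩
  | succ N ih =>
    intro l hl hp he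
    match l with
    | [] => exact ⟨0, rfl⟩
    | [b] =>
      have := hp (0, b) (by simp)
      obtain ⟨t, ht⟩ := he
      have h0 : b = 0 := by
        have := congrArg List.getLast? ht
        simpa using this
      subst h0
      simp at this
    | b :: c :: l' =>
      have h1 := hp (0, b) (by simp)
      have hb : b = 1 := by
        rcases h1 with h1 | h1
        · exact (Prod.mk.inj h1).2
        · exact absurd (Prod.mk.inj h1).1 (by decide)
      subst hb
      have h2 := hp (1, c) (by simp)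
      have hc : c = 0 := by
        rcases h2 with h2 | h2
        · exact absurd (Prod.mk.inj h2).1 (by decide)
        · exact (Prod.mk.inj h2).2
      subst hc
      obtain ⟨k, hk⟩ := ih l' (by simp at hl; omega) (fun e he => hp e (by simp [he]))
        (by obtain ⟨t, ht⟩ := he
            exact suffix_ends (l := [0, 1]) (t := t) ht)
      exact ⟨k + 1, by rw [rep_succ, hk]; rfl⟩

theorem wt_alt {G : Type} [Group G] (g : G) (k : ℕ) :
    wt (fun a _ => if a = 0 then g else 1) (0 :: rep [1, 0] k) = g ^ k := by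
  induction k with
  | zero => simp
  | succ k ih =>
    rw [rep_succ]
    show wt _ (0 :: 1 :: 0 :: rep [1, 0] k) = _
    rw [wt_cons_cons, wt_cons_cons, ih, pow_succ']
    simp

theorem caseB_aux {n : ℕ} (hn : 1 ≤ n) {V : Set Sgp} (hR : RS n ⊆ V)
    (h1 : ∀ S ∈ V, Satisfies S.carrier (idPow 2 (n + 2)))
    (h2 : ∃ S ∈ V, ¬ Satisfies S.carrier (idII n)) {u v : FreeSemigroup ℕ}
    (huv : ∀ T ∈ V, Satisfies T.carrier (u, v)) (hu : lift gT u ≠ T1.zero) : u = v := by
  have hK : KK n ⊆ V := (subset_Gen (KK n)).trans hR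
  obtain ⟨a1, ⟨z, a2, a3⟩, a4, a5⟩ := KK_ids (n := n) (u := u) (v := v)
    (fun S hS => huv S (hK hS))
  obtain ⟨_, _, b4, _⟩ := KK_ids (n := n) (u := v) (v := u)
    (fun S hS f => (huv S (hK hS) f).symm)
  have hu' := T1_nz u hu
  apply toL_inj
  have hv : toL v = v.head :: v.tail := rfl
  rw [hu'] at a2 a4 b4 a5 ⊢
  have hhead : u.head = (rl (lift gT u)).head! := by rw [← hu']; rfl
  rw [hhead] at a1
  clear hhead
  revert hu
  generalize lift gT u = t at *
  intro hu
  cases t with
  | x =>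
    rw [hv, ← a1]
    cases hvt : v.tail with
    | nil => rfl
    | cons b l =>
      have := a4 (v.head, b) (by rw [hv, hvt]; simp)
      simp [rl] at this
  | y =>
    rw [hv, ← a1]
    cases hvt : v.tail with
    | nil => rfl
    | cons b l =>
      have := a4 (v.head, b) (by rw [hv, hvt]; simp)
      simp [rl] at this
  | xy =>
    rw [hv, ← a1]
    have h01 := b4 (0, 1) (by simp [rl])
    cases hvt : v.tail with
    | nil => rw [hv, hvt] at h01; simp at h01
    | cons b l =>
      have h := a4 (v.head, b) (by rw [hv, hvt]; simp)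
      simp [rl] at h
      obtain ⟨h0, rfl⟩ := h
      cases l with
      | nil => rfl
      | cons c l =>
        have := a4 (1, c) (by rw [hv, hvt]; simp)
        simp [rl] at this
  | yx =>
    rw [hv, ← a1]
    have h01 := b4 (1, 0) (by simp [rl])
    cases hvt : v.tail with
    | nil => rw [hv, hvt] at h01; simp at h01
    | cons b l =>
      have h := a4 (v.head, b) (by rw [hv, hvt]; simp)
      simp [rl] at h
      obtain ⟨h0, rfl⟩ := h
      cases l with
      | nil => rfl
      | cons c l =>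
        have := a4 (0, c) (by rw [hv, hvt]; simp)
        simp [rl] at this
  | zero => exact absurd rfl hu
  | xyx =>
    have hv0 : toL v = 0 :: v.tail := by rw [hv, ← a1]; rfl
    have hz : z = 0 := by
      obtain ⟨t, ht⟩ := a2
      have := congrArg List.getLast? ht
      simpa [rl] using this.symm
    subst hz
    rw [hv0] at a3 a4 a5 b4
    obtain ⟨k, hk⟩ := alt v.tail.length v.tail le_rfl
      (fun e he => by
        have := a4 e he
        simpa [rl] using this) a3
    have hG : ∀ g : Multiplicative (ZMod n), g ^ n = 1 := by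
      intro g
      rw [← toAdd_eq_zero, toAdd_pow]
      simp
    have hw := a5 (Multiplicative (ZMod n)) hG
      (fun a _ => if a = 0 then Multiplicative.ofAdd 1 else 1)
    rw [hk, wt_alt] at hw
    have hw' : (1 : ZMod n) = (k : ZMod n) := by
      have := congrArg Multiplicative.toAdd hw
      simpa [rl, wt] using this
    have hk0 : k ≠ 0 := by
      rintro rfl
      have := b4 (0, 1) (by simp [rl])
      rw [hk] at this
      simp at this
    by_cases hk1 : k = 1
    · subst hk1
      rw [hv0, hk]; rfl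
    · exfalso
      obtain ⟨S, hS, hS2⟩ := h2
      apply hS2
      rw [sat_II]
      intro x y
      have hk2 : ∃ q, k = 1 + n * (q + 1) := by
        have h3 : ((1 : ℕ) : ZMod n) = (k : ZMod n) := by rw [← hw']; simp
        rw [ZMod.natCast_eq_natCast_iff] at h3
        have h4 : n ∣ k - 1 := (Nat.modEq_iff_dvd' (by omega)).1 h3
        obtain ⟨c, hc⟩ := h4
        cases c with
        | zero => omega
        | succ q => exact ⟨q, by omega⟩
      obtain ⟨q, hq⟩ := hk2
      have h5 := huv S hS (val4 x y y y)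
      have h6 := congrArg (fun s : S.carrier => (s : WithOne S.carrier)) h5
      simp only [coe_lift] at h6
      rw [hu', hv0, hk] at h6
      have h7 : (x : WithOne S.carrier) * (y * x) = x * ((y : WithOne S.carrier) * x) ^ k := by
        simpa [rl, cw, val4] using h6
      have h8 : ((y : WithOne S.carrier) * x) ^ 2 = ((y : WithOne S.carrier) * x) ^ (n + 2) := by
        have := congrArg (fun s : S.carrier => (s : WithOne S.carrier))
          (sat_pow.1 (h1 S hS) (y * x))
        simpa only [coe_spow (y * x) 1, coe_spow (y * x) (n + 1), WithOne.coe_mul] using this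
      apply coe_inj'
      simp only [WithOne.coe_mul, coe_spow]
      rw [mul_pow_slide, ← pow_red hn h8 q, ← hq, ← h7, mul_assoc]

theorem caseB {n : ℕ} (hn : 1 ≤ n) {V : Set Sgp} (hV : IsVariety V) (hR : RS n ⊆ V)
    (h1 : ∀ S ∈ V, Satisfies S.carrier (idPow 2 (n + 2)))
    (h2 : ∃ S ∈ V, ¬ Satisfies S.carrier (idII n)) : (⟨T1⟩ : Sgp) ∈ V := by
  rw [mem_iff hV]
  intro e he f
  have hsub : ∀ w : FreeSemigroup ℕ, lift gT (lift (fun a => rw1 (f a)) w) = lift f w := by
    intro w
    rw [lift_lift]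
    simp only [lift_rw1]
  have hV' : ∀ T ∈ V, Satisfies T.carrier
      (lift (fun a => rw1 (f a)) e.1, lift (fun a => rw1 (f a)) e.2) := by
    intro T hT g
    simp only
    rw [lift_lift, lift_lift]
    exact he T hT _
  rw [← hsub, ← hsub]
  by_cases h3 : lift gT (lift (fun a => rw1 (f a)) e.1) = T1.zero
  · by_cases h4 : lift gT (lift (fun a => rw1 (f a)) e.2) = T1.zero
    · rw [h3, h4]
    · rw [caseB_aux hn hR h1 h2 (fun T hT g => (hV' T hT g).symm) h4]
  · rw [caseB_aux hn hR h1 h2 hV' h3]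

/-! ### Case A : `(i)` fails -/

/-- weighted length -/
def wlen (g : ℕ → ℕ) (w : FreeSemigroup ℕ) : ℕ := ((toL w).map g).sum

theorem wlen_of (g : ℕ → ℕ) (a : ℕ) : wlen g (of a) = g a := by simp [wlen, toL_of]

theorem wlen_mul (g : ℕ → ℕ) (u v : FreeSemigroup ℕ) :
    wlen g (u * v) = wlen g u + wlen g v := by simp [wlen, toL_mul]

theorem wlen_pos {g : ℕ → ℕ} (hg : ∀ a, 1 ≤ g a) (u : FreeSemigroup ℕ) : 1 ≤ wlen g u := by
  induction u with
  | ih1 x => rw [wlen_of]; exact hg x
  | ih2 x y _ ihy => rw [wlen_mul]; omega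

theorem lift_spow {S : Type} [Semigroup S] {g : ℕ → ℕ} (hg : ∀ a, 1 ≤ g a) (s : S)
    (u : FreeSemigroup ℕ) :
    ((lift (fun a => spow s (g a)) u : S) : WithOne S) = (s : WithOne S) ^ (wlen g u) := by
  have h1 : ∀ k, 1 ≤ k → ((spow s k : S) : WithOne S) = (s : WithOne S) ^ k := by
    intro k hk
    obtain ⟨m, rfl⟩ : ∃ m, k = m + 1 := ⟨k - 1, by omega⟩
    exact coe_spow s m
  induction u with
  | ih1 x => rw [lift_of, wlen_of, h1 _ (hg x)]
  | ih2 x y _ ihy =>
    rw [map_mul, lift_of, WithOne.coe_mul, ihy, wlen_mul, wlen_of, h1 _ (hg x), pow_add]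

/-- the homomorphism from positive integers onto `T_N` -/
def valN : ℕ → TN
  | 1 => .x
  | 2 => .xx
  | _ => .zero

/-- degree -/
def degN : TN → ℕ
  | .x => 1
  | .xx => 2
  | .zero => 3

theorem valN_add {a b : ℕ} (ha : 1 ≤ a) (hb : 1 ≤ b) : valN (a + b) = valN a * valN b := by
  match a, b with
  | 0, _ => omega
  | _, 0 => omega
  | 1, 1 => rfl
  | 1, 2 => rfl
  | 2, 1 => rfl
  | 2, 2 => rfl
  | 1, b + 3 => show valN (1 + (b + 3)) = _; rw [show 1 + (b + 3) = b + 4 by omega]; rfl
  | 2, b + 3 => show valN (2 + (b + 3)) = _; rw [show 2 + (b + 3) = b + 5 by omega]; rfl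
  | a + 3, b + 1 =>
    rw [show a + 3 + (b + 1) = (a + b + 1) + 3 by omega]
    show TN.zero = TN.zero * valN (b + 1)
    have : ∀ t : TN, TN.zero * t = TN.zero := by decide
    rw [this]

theorem lift_TN (f : ℕ → TN) (u : FreeSemigroup ℕ) :
    lift f u = valN (wlen (fun a => degN (f a)) u) := by
  have hpos : ∀ a, 1 ≤ degN (f a) := by
    intro a; cases f a <;> decide
  induction u with
  | ih1 x =>
    rw [lift_of, wlen_of]
    cases f x <;> rfl
  | ih2 x y _ ihy =>
    have hx : f x = valN (degN (f x)) := by cases f x <;> rfl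
    rw [map_mul, lift_of, ihy, wlen_mul, wlen_of, valN_add (hpos x) (wlen_pos hpos y), ← hx]

theorem pow_per {M : Type} [Monoid M] {s : M} {d : ℕ} (h : s ^ (2 + d) = s ^ 2) (q : ℕ) :
    s ^ (2 + d * q) = s ^ 2 := by
  induction q with
  | zero => simp
  | succ q ih =>
    rw [show 2 + d * (q + 1) = (2 + d * q) + d by ring, pow_add, ih, ← pow_add, h]

/-- if `T_N ∉ V` then `V` satisfies `x² = x^(2+K)` for some `K ≥ 1`. -/
theorem caseA_per {V : Set Sgp} (hV : IsVariety V) (hN : (⟨TN⟩ : Sgp) ∉ V) :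
    ∃ K, 1 ≤ K ∧ ∀ T ∈ V, ∀ s : T.carrier,
      (s : WithOne T.carrier) ^ (2 + K) = (s : WithOne T.carrier) ^ 2 := by
  rw [mem_iff hV] at hN
  push_neg at hN
  obtain ⟨e, he, hne⟩ := hN
  unfold Satisfies at hne
  push_neg at hne
  obtain ⟨f, hf⟩ := hne
  set g : ℕ → ℕ := fun a => degN (f a) with hg
  have hpos : ∀ a, 1 ≤ g a := by
    intro a; simp only [hg]; cases f a <;> decide
  rw [lift_TN, lift_TN] at hf
  have hk := wlen_pos hpos e.1
  have hl := wlen_pos hpos e.2
  have hs : ∀ T ∈ V, ∀ s : T.carrier,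
      (s : WithOne T.carrier) ^ (wlen g e.1) = (s : WithOne T.carrier) ^ (wlen g e.2) := by
    intro T hT s
    rw [← lift_spow hpos, ← lift_spow hpos, he T hT]
  have hf' : valN (wlen g e.1) ≠ valN (wlen g e.2) := hf
  clear hf
  revert hk hl hs hf'
  generalize wlen g e.1 = k
  generalize wlen g e.2 = l
  intro hk hl hs hf'
  have hkl : k ≠ l := fun h => hf' (by rw [h])
  have h3 : ∀ m, 3 ≤ m → valN m = TN.zero := by
    intro m hm
    obtain ⟨m', rfl⟩ : ∃ m', m = m' + 3 := ⟨m - 3, by omega⟩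
    rfl
  have hmin : k ≤ 2 ∨ l ≤ 2 := by
    by_contra h
    rw [not_or] at h
    exact hf' (by rw [h3 k (by omega), h3 l (by omega)])
  rcases Nat.lt_or_gt_of_ne hkl with h | h
  · refine ⟨l - k, by omega, fun T hT s => ?_⟩
    have h2 : k ≤ 2 := by omega
    have := congrArg (· * (s : WithOne T.carrier) ^ (2 - k)) (hs T hT s)
    simp only [← pow_add] at this
    rw [show k + (2 - k) = 2 by omega, show l + (2 - k) = 2 + (l - k) by omega] at this
    exact this.symm
  · refine ⟨k - l, by omega, fun T hT s => ?_⟩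
    have h2 : l ≤ 2 := by omega
    have := congrArg (· * (s : WithOne T.carrier) ^ (2 - l)) (hs T hT s)
    simp only [← pow_add] at this
    rw [show l + (2 - l) = 2 by omega, show k + (2 - l) = 2 + (k - l) by omega] at this
    exact this

theorem lift_Z {q : ℕ} [NeZero q] (f : ℕ → Multiplicative (ZMod q)) (u : FreeSemigroup ℕ) :
    lift f u = Multiplicative.ofAdd
      ((wlen (fun a => (Multiplicative.toAdd (f a)).val + q) u : ℕ) : ZMod q) := by
  have h1 : ∀ a, f a = Multiplicative.ofAdd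
      (((Multiplicative.toAdd (f a)).val + q : ℕ) : ZMod q) := by
    intro a
    simp
  induction u with
  | ih1 x => rw [lift_of, wlen_of]; exact h1 x
  | ih2 x y _ ihy =>
    rw [map_mul, lift_of, ihy, wlen_mul, wlen_of, Nat.cast_add, ofAdd_add, ← h1 x]

theorem caseA {n : ℕ} (hn : 1 ≤ n) {V : Set Sgp} (hV : IsVariety V) {S : Sgp} (hS : S ∈ V)
    (hfail : ¬ Satisfies S.carrier (idPow 2 (n + 2))) :
    (⟨TN⟩ : Sgp) ∈ V ∨ ∃ p : Nat.Primes, extra n (.P p) ∈ V := by
  classical
  by_cases hN : (⟨TN⟩ : Sgp) ∈ V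
  · exact Or.inl hN
  right
  obtain ⟨K, hK1, hK⟩ := caseA_per hV hN
  rw [sat_pow] at hfail
  push_neg at hfail
  obtain ⟨s, hs⟩ := hfail
  have hs' : (s : WithOne S.carrier) ^ (2 + n) ≠ (s : WithOne S.carrier) ^ 2 := by
    intro h
    apply hs
    apply coe_inj'
    rw [coe_spow s 1, coe_spow s (n + 1), ← h, add_comm 2 n]
  have hKs := hK S hS s
  generalize hx : (s : WithOne S.carrier) = x at *
  have hex : ∃ j, 0 < j ∧ x ^ (2 + j) = x ^ 2 := ⟨K, hK1, hKs⟩
  set d := Nat.find hex with hd
  obtain ⟨hd0, hd1⟩ := Nat.find_spec hex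
  rw [← hd] at hd0 hd1
  have hdvd : ∀ j, x ^ (2 + j) = x ^ 2 → d ∣ j := by
    intro j
    induction j using Nat.strong_induction_on with
    | _ j ih =>
      intro hj
      rcases Nat.eq_zero_or_pos j with rfl | hj0
      · exact dvd_zero d
      · have hle : d ≤ j := Nat.find_min' hex ⟨hj0, hj⟩
        have h1 : x ^ (2 + (j - d)) = x ^ 2 := by
          rw [pow_add, ← hd1, ← pow_add, show 2 + d + (j - d) = 2 + j by omega, hj, hd1]
        have h2 := ih (j - d) (by omega) h1
        have h3 : d ∣ (j - d) + d := dvd_add h2 dvd_rfl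
        rwa [Nat.sub_add_cancel hle] at h3
  have hdn : ¬ d ∣ n := by
    rintro ⟨q, rfl⟩
    exact hs' (pow_per hd1 q)
  have hn0 : n ≠ 0 := by omega
  rw [Nat.dvd_iff_prime_pow_dvd_dvd] at hdn
  push_neg at hdn
  obtain ⟨p, k, hp, hpd, hpn⟩ := hdn
  haveI : Fact p.Prime := ⟨hp⟩
  have hlt : padicValNat p n < k := by
    by_contra h
    exact hpn ((padicValNat_dvd_iff_le hn0).2 (by omega))
  set q := p ^ (padicValNat p n + 1) with hq
  have hqd : q ∣ d := (pow_dvd_pow p (by omega)).trans hpd
  haveI : NeZero q := ⟨by rw [hq]; exact pow_ne_zero _ hp.ne_zero⟩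
  refine ⟨⟨p, hp⟩, ?_⟩
  rw [mem_iff hV]
  intro e he
  show Satisfies (Multiplicative (ZMod q)) e
  intro f
  rw [lift_Z, lift_Z]
  set g : ℕ → ℕ := fun a => (Multiplicative.toAdd (f a)).val + q with hg
  have hpos : ∀ a, 1 ≤ g a := by
    intro a
    have : 0 < q := Nat.pos_of_ne_zero (NeZero.ne q)
    simp only [hg]; omega
  have hse : x ^ (wlen g e.1) = x ^ (wlen g e.2) := by
    rw [← hx, ← lift_spow hpos, ← lift_spow hpos, he S hS]
  have main : ∀ k l, k ≤ l → x ^ k = x ^ l → ((k : ℕ) : ZMod q) = ((l : ℕ) : ZMod q) := by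
    intro k l hkl h
    have h1 : x ^ (2 + (l - k)) = x ^ 2 := by
      have hKk : k ≤ K * k := Nat.le_mul_of_pos_left k hK1
      have e1 : x ^ (2 + K * k) = x ^ 2 := pow_per hKs k
      calc x ^ (2 + (l - k)) = x ^ (2 + K * k) * x ^ (l - k) := by rw [e1, ← pow_add]
        _ = x ^ (2 + (K * k - k)) * x ^ l := by
            rw [← pow_add, ← pow_add]; congr 1; omega
        _ = x ^ (2 + (K * k - k)) * x ^ k := by rw [h]
        _ = x ^ (2 + K * k) := by rw [← pow_add]; congr 1; omega
        _ = x ^ 2 := e1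
    have h2 : q ∣ l - k := hqd.trans (hdvd _ h1)
    rw [ZMod.natCast_eq_natCast_iff]
    exact (Nat.modEq_iff_dvd' hkl).2 h2
  rcases le_total (wlen g e.1) (wlen g e.2) with h | h
  · rw [main _ _ h hse]
  · rw [main _ _ h hse.symm]


end RSCov
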