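import Pool.Agent.Helper966.RS.Sat

namespace RSCov

open FreeSemigroup

/-! ### General facts on varieties -/

theorem isVariety_Gen (K : Set Sgp) : IsVariety (Gen K) := ⟨_, rfl⟩

theorem subset_Gen (K : Set Sgp) : K ⊆ Gen K := fun S hS _ he => he S hS

theorem mem_iff {V : Set Sgp} (hV : IsVariety V) {S : Sgp} :
    S ∈ V ↔ ∀ e, (∀ T ∈ V, Satisfies T.carrier e) → Satisfies S.carrier e := by
  obtain ⟨Γ, rfl⟩ := hV
  constructor
  · intro h e he; exact he S h
  · intro h e he
    exact h e (fun T hT => hT e he)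

theorem Gen_holds {K : Set Sgp} {e : Identity} :
    (∀ S ∈ Gen K, Satisfies S.carrier e) ↔ ∀ S ∈ K, Satisfies S.carrier e :=
  ⟨fun h S hS => h S (subset_Gen K hS), fun h _ hS => hS e h⟩

theorem Gen_le {K V : Set Sgp} (hV : IsVariety V) (h : K ⊆ V) : Gen K ⊆ V := by
  intro S hS
  rw [mem_iff hV]
  intro e he
  exact hS e (fun T hT => he T (h hT))

theorem mem_RS {n : ℕ} (hn : 1 ≤ n) {S : Sgp} : S ∈ RS n ↔
    Satisfies S.carrier (idPow 2 (n + 2)) ∧ Satisfies S.carrier (idII n) ∧
      Satisfies S.carrier (idIII n) := by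
  constructor
  · intro h
    exact ⟨h _ (fun T hT => KK_I hT), h _ (fun T hT => KK_II hn hT),
      h _ (fun T hT => KK_III hn hT)⟩
  · rintro ⟨h1, h2, h3⟩ e he
    exact basis hn h1 h2 h3 he

theorem RS_holds {n : ℕ} {e : Identity} :
    (∀ S ∈ RS n, Satisfies S.carrier e) ↔ ∀ S ∈ KK n, Satisfies S.carrier e := Gen_holds

/-! ### The semigroup `B₂` -/

inductive B2 : Type
  | zero : B2
  | el (i j : Bool) : B2
  deriving DecidableEq, Fintype

instance : Mul B2 := ⟨fun s t => match s, t with
  | .zero, _ => .zero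
  | _, .zero => .zero
  | .el i j, .el i' j' => if j = i' then .el i j' else .zero⟩

instance : Semigroup B2 where
  mul_assoc := by decide

theorem spow_stab {S : Type} [Semigroup S] {x : S} (h : x * x * x = x * x) (k : ℕ) :
    spow x (k + 2) = x * x := by
  induction k with
  | zero => rfl
  | succ k ih => rw [spow, ih, h]

theorem B2_mem {n : ℕ} : (⟨B2⟩ : Sgp) ∈ KK n := by
  refine ⟨⟨B2.zero, ?_, ?_, ?_⟩, ?_⟩
  · intro a
    show B2.zero * a = B2.zero ∧ a * B2.zero = B2.zero
    revert a; decide
  · exact ⟨B2.el true true, B2.el true true, by decide⟩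
  · intro I hne hI
    by_cases h : ∃ i j, B2.el i j ∈ I
    · right
      obtain ⟨i, j, h⟩ := h
      have e1 : ∀ a b c : Bool, B2.el a b * B2.el b c = B2.el a c := by decide
      have hall : ∀ k l, B2.el k l ∈ I := by
        intro k l
        have a1 := (hI _ h (B2.el k i)).1
        rw [e1] at a1
        have a2 := (hI _ a1 (B2.el j l)).2
        rwa [e1] at a2
      apply Set.eq_univ_of_forall
      intro s
      rcases s with _ | ⟨k, l⟩
      · exact (hI _ h B2.zero).1
      · exact hall k l
    · left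
      obtain ⟨s, hs⟩ := hne
      have hz : ∀ s ∈ I, s = B2.zero := by
        intro s hs
        rcases s with _ | ⟨k, l⟩
        · rfl
        · exact absurd ⟨k, l, hs⟩ h
      ext t
      constructor
      · intro ht; exact hz t ht
      · rintro rfl
        rw [← hz s hs]; exact hs
  · intro x
    have h1 : ∀ x : B2, x * x * x = x * x := by decide
    show spow x 2 = spow x (n + 2)
    exact ((spow_stab (h1 x) 0).trans (spow_stab (h1 x) n).symm)

/-! ### The embedding lemma -/

theorem embed {T S B : Type} [Semigroup T] [Semigroup S] [Semigroup B] (zT : T)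
    (hz : ∀ t, zT * t = zT ∧ t * zT = zT) (κ : T → S) (β : T → B)
    (hβ : ∀ t t', β (t * t') = β t * β t')
    (h1 : ∀ t t', t * t' ≠ zT → κ (t * t') = κ t * κ t')
    (h2 : ∀ t, β t = β zT → t = zT)
    (h3 : ∀ t t', t ≠ zT → t' ≠ zT → κ t = κ t' → β t = β t' → t = t')
    {e : Identity} (hS : Satisfies S e) (hB : Satisfies B e) : Satisfies T e := by
  intro f
  have k1 : ∀ u : FreeSemigroup ℕ, lift f u ≠ zT → κ (lift f u) = lift (fun a => κ (f a)) u := by
    intro u
    induction u with
    | ih1 x => intro _; simp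
    | ih2 x y _ ihy =>
      intro h
      rw [map_mul, lift_of] at h
      have hy : lift f y ≠ zT := by
        intro h'; rw [h'] at h; exact h (hz _).2
      rw [map_mul, lift_of, h1 _ _ h, ihy hy, map_mul, lift_of]
  have k2 : ∀ u : FreeSemigroup ℕ, β (lift f u) = lift (fun a => β (f a)) u := by
    intro u
    induction u with
    | ih1 x => simp
    | ih2 x y _ ihy => rw [map_mul, lift_of, hβ, ihy, map_mul, lift_of]
  have hb : β (lift f e.1) = β (lift f e.2) := by rw [k2, k2]; exact hB _
  by_cases hu : lift f e.1 = zT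
  · rw [hu] at hb ⊢
    exact (h2 _ hb.symm).symm
  · by_cases hv : lift f e.2 = zT
    · rw [hv] at hb
      exact absurd (h2 _ hb) hu
    · apply h3 _ _ hu hv _ hb
      rw [k1 _ hu, k1 _ hv]; exact hS _

/-- the projection `T_L → B₂` -/
def projL : TL → B2
  | .zero => .zero
  | .c => .el false true
  | .el i _ j => .el i j

/-- data for `T_L` -/
def DataL (S : Type) [Semigroup S] : Prop :=
  ∃ x y z : S, y * x * y = y ∧ y * x * z = y ∧ z * x * y = z ∧ z * x * z = z ∧
    x * y * x ≠ x * z * x

/-- data for `T_R` -/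
def DataR (S : Type) [Semigroup S] : Prop :=
  ∃ x y z : S, y * x * y = y ∧ z * x * y = y ∧ y * x * z = z ∧ z * x * z = z ∧
    x * y * x ≠ x * z * x

/-- the partial map `T_L → S` -/
def kapL {S : Type} [Semigroup S] (x : S) (w : Bool → S) : TL → S
  | .zero => x
  | .c => x
  | .el false m false => x * w m
  | .el false m true => x * w m * x
  | .el true m false => w m
  | .el true m true => w m * x

theorem TL_mul (i m j m' j' : Bool) : TL.el i m j * TL.el j m' j' = TL.el i m j' := by
  revert i m j m' j'; decide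

theorem satL {S : Type} [Semigroup S] (h : DataL S) {e : Identity} (hS : Satisfies S e)
    (hB : Satisfies B2 e) : Satisfies TL e := by
  obtain ⟨x, y, z, hyy, hyz, hzy, hzz, hne⟩ := h
  set w : Bool → S := fun b => if b then z else y with hw
  have hww : ∀ m m', w m * (x * w m') = w m := by
    intro m m'
    rw [← mul_assoc]
    cases m <;> cases m' <;> simp [hw, hyy, hyz, hzy, hzz]
  have hww' : ∀ m m' s, w m * (x * (w m' * s)) = w m * s := by
    intro m m' s
    rw [← mul_assoc x, ← mul_assoc, hww]
  have hwne : ∀ m m', x * (w m * x) = x * (w m' * x) → m = m' := by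
    intro m m' h
    cases m <;> cases m'
    · rfl
    · exact absurd (by simpa [hw, mul_assoc] using h) hne
    · exact absurd (by simpa [hw, mul_assoc] using h.symm) hne
    · rfl
  have hxne : ∀ m, x ≠ x * (w m * x) := by
    intro m h
    have h2 : ∀ m', x * (w m' * x) = x * (w m * x) := by
      intro m'
      calc x * (w m' * x) = (x * (w m * x)) * (w m' * x) := by rw [← h]
        _ = x * (w m * (x * w m')) * x := by simp only [mul_assoc]
        _ = x * (w m * x) := by rw [hww, mul_assoc]
    have := hwne _ _ ((h2 false).trans (h2 true).symm)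
    exact absurd this (by decide)
  refine embed TL.zero (by decide) (kapL x w) projL (by decide) ?_ (by decide) ?_ hS hB
  · rintro (_ | _ | ⟨i, m, j⟩) (_ | _ | ⟨i', m', j'⟩) h
    · exact absurd rfl h
    · exact absurd rfl h
    · exact absurd rfl h
    · exact absurd rfl h
    · exact absurd rfl h
    · cases i'
      · exact absurd rfl h
      · cases j'
        · rfl
        · show x * w m' * x = x * (w m' * x)
          rw [mul_assoc]
    · exact absurd rfl h
    · cases j
      · cases i <;> rfl
      · exact absurd rfl h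
    · cases j <;> cases i'
      · rw [TL_mul]
        cases i <;> cases j' <;> simp only [kapL, mul_assoc, hww, hww']
      · exact absurd rfl h
      · exact absurd rfl h
      · rw [TL_mul]
        cases i <;> cases j' <;> simp only [kapL, mul_assoc, hww, hww']
  · rintro (_ | _ | ⟨i, m, j⟩) (_ | _ | ⟨i', m', j'⟩) h h' hk hb
    · rfl
    · exact absurd rfl h
    · exact absurd rfl h
    · exact absurd rfl h'
    · rfl
    · obtain ⟨rfl, rfl⟩ := B2.el.inj hb
      simp only [kapL, mul_assoc] at hk
      exact absurd hk (hxne m')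
    · exact absurd rfl h'
    · obtain ⟨rfl, rfl⟩ := B2.el.inj hb
      simp only [kapL, mul_assoc] at hk
      exact absurd hk.symm (hxne m)
    · obtain ⟨rfl, rfl⟩ := B2.el.inj hb
      have : m = m' := by
        apply hwne
        cases i <;> cases j <;> simp only [kapL, mul_assoc] at hk
        · rw [← mul_assoc, ← mul_assoc, hk]
        · exact hk
        · rw [hk]
        · rw [hk]
      rw [this]

theorem embed_op {T S B : Type} [Semigroup T] [Semigroup S] [Semigroup B] (zT : T)
    (hz : ∀ t, zT * t = zT ∧ t * zT = zT) (κ : T → S) (β : T → B)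
    (hβ : ∀ t t', β (t * t') = β t' * β t)
    (h1 : ∀ t t', t * t' ≠ zT → κ (t * t') = κ t' * κ t)
    (h2 : ∀ t, β t = β zT → t = zT)
    (h3 : ∀ t t', t ≠ zT → t' ≠ zT → κ t = κ t' → β t = β t' → t = t')
    {e : Identity} (hS : Satisfies S e) (hB : Satisfies B e) : Satisfies Tᵐᵒᵖ e := by
  refine embed (MulOpposite.op zT) ?_ (fun t => κ t.unop) (fun t => β t.unop) ?_ ?_ ?_ ?_ hS hB
  · intro t
    constructor
    · apply MulOpposite.unop_injective
      rw [MulOpposite.unop_mul]; exact (hz t.unop).2
    · apply MulOpposite.unop_injective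
      rw [MulOpposite.unop_mul]; exact (hz t.unop).1
  · intro t t'
    exact hβ _ _
  · intro t t' h
    apply h1
    intro h'
    apply h
    apply MulOpposite.unop_injective
    exact h'
  · intro t h
    apply MulOpposite.unop_injective
    exact h2 _ h
  · intro t t' h h' hk hb
    apply MulOpposite.unop_injective
    refine h3 _ _ ?_ ?_ hk hb
    · intro h0; apply h; apply MulOpposite.unop_injective; exact h0
    · intro h0; apply h'; apply MulOpposite.unop_injective; exact h0

/-- the projection `T_R → B₂` -/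
def projR : TL → B2
  | .zero => .zero
  | .c => .el true false
  | .el i _ j => .el j i

/-- the partial map `T_R → S` -/
def kapR {S : Type} [Semigroup S] (x : S) (w : Bool → S) : TL → S
  | .zero => x
  | .c => x
  | .el false m false => w m * x
  | .el false m true => x * w m * x
  | .el true m false => w m
  | .el true m true => x * w m

theorem satR {S : Type} [Semigroup S] (h : DataR S) {e : Identity} (hS : Satisfies S e)
    (hB : Satisfies B2 e) : Satisfies TLᵐᵒᵖ e := by
  obtain ⟨x, y, z, hyy, hzy, hyz, hzz, hne⟩ := h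
  set w : Bool → S := fun b => if b then z else y with hw
  have hww : ∀ m m', w m' * (x * w m) = w m := by
    intro m m'
    rw [← mul_assoc]
    cases m <;> cases m' <;> simp [hw, hyy, hyz, hzy, hzz]
  have hww' : ∀ m m' s, w m' * (x * (w m * s)) = w m * s := by
    intro m m' s
    rw [← mul_assoc x, ← mul_assoc, hww]
  have hwne : ∀ m m', x * (w m * x) = x * (w m' * x) → m = m' := by
    intro m m' h
    cases m <;> cases m'
    · rfl
    · exact absurd (by simpa [hw, mul_assoc] using h) hne
    · exact absurd (by simpa [hw, mul_assoc] using h.symm) hne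
    · rfl
  have hxne : ∀ m, x ≠ x * (w m * x) := by
    intro m h
    have h2 : ∀ m', x * (w m' * x) = x * (w m * x) := by
      intro m'
      calc x * (w m' * x) = x * (w m' * (x * (w m * x))) := by rw [← h]
        _ = x * (w m * x) := by rw [hww']
    have := hwne _ _ ((h2 false).trans (h2 true).symm)
    exact absurd this (by decide)
  refine embed_op TL.zero (by decide) (kapR x w) projR (by decide) ?_ (by decide) ?_ hS hB
  · rintro (_ | _ | ⟨i, m, j⟩) (_ | _ | ⟨i', m', j'⟩) h
    · exact absurd rfl h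
    · exact absurd rfl h
    · exact absurd rfl h
    · exact absurd rfl h
    · exact absurd rfl h
    · cases i'
      · exact absurd rfl h
      · cases j' <;> rfl
    · exact absurd rfl h
    · cases j
      · cases i
        · show x * w m * x = x * (w m * x)
          rw [mul_assoc]
        · rfl
      · exact absurd rfl h
    · cases j <;> cases i'
      · rw [TL_mul]
        cases i <;> cases j' <;> simp only [kapR, mul_assoc, hww, hww']
      · exact absurd rfl h
      · exact absurd rfl h
      · rw [TL_mul]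
        cases i <;> cases j' <;> simp only [kapR, mul_assoc, hww, hww']
  · rintro (_ | _ | ⟨i, m, j⟩) (_ | _ | ⟨i', m', j'⟩) h h' hk hb
    · rfl
    · exact absurd rfl h
    · exact absurd rfl h
    · exact absurd rfl h'
    · rfl
    · obtain ⟨rfl, rfl⟩ := B2.el.inj hb
      simp only [kapR, mul_assoc] at hk
      exact absurd hk (hxne m')
    · exact absurd rfl h'
    · obtain ⟨rfl, rfl⟩ := B2.el.inj hb
      simp only [kapR, mul_assoc] at hk
      exact absurd hk.symm (hxne m)
    · obtain ⟨rfl, rfl⟩ := B2.el.inj hb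
      have : m = m' := by
        apply hwne
        cases i <;> cases j <;> simp only [kapR, mul_assoc] at hk
        · rw [hk]
        · exact hk
        · rw [hk]
        · rw [← mul_assoc, ← mul_assoc, hk]
      rw [this]

/-! ### Construction of the data from a failure of `xyx(zx)^n ≈ x(zx)^n yx` -/

theorem construct {M : Type} [Monoid M] {n : ℕ} (hn : 1 ≤ n) (x y z : M)
    (hx : ∀ Y, x * Y * x = x * (Y * x) ^ (n + 1))
    (hne : x * (y * x * (z * x) ^ n) ^ n ≠ x * (z * x) ^ n * (y * x * (z * x) ^ n) ^ n) :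
    ∃ Y1 Z1 : M, (Y1 * z) * x * (Y1 * z) = Y1 * z ∧ (Y1 * z) * x * (Z1 * z) = Y1 * z ∧
      (Z1 * z) * x * (Y1 * z) = Z1 * z ∧ (Z1 * z) * x * (Z1 * z) = Z1 * z ∧
      x * (Y1 * z) * x ≠ x * (Z1 * z) * x := by
  obtain ⟨m, rfl⟩ : ∃ m, n = m + 1 := ⟨n - 1, by omega⟩
  have per : ∀ Y k, x * (Y * x) ^ (k + 1 + (m + 1)) = x * (Y * x) ^ (k + 1) := by
    intro Y k
    have := hx Y
    calc x * (Y * x) ^ (k + 1 + (m + 1)) = x * (Y * x) ^ (m + 1 + 1) * (Y * x) ^ k := by
          rw [mul_assoc, ← pow_add]; congr 2; omega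
      _ = x * (Y * x) ^ (k + 1) := by
          rw [← this, pow_succ']; simp only [mul_assoc]
  set c := (z * x) ^ (m + 1) with hc
  set g := y * x * c with hg
  set P := g ^ (m + 1) with hP
  have hc' : c = (z * x) ^ m * z * x := by rw [hc, pow_succ]; simp only [mul_assoc]
  have hg' : g = (y * x * ((z * x) ^ m * z)) * x := by rw [hg, hc']; simp only [mul_assoc]
  -- (c) `x P P = x P`
  have xPP : x * (P * P) = x * P := by
    rw [hP, ← pow_add, hg']
    exact per _ _
  have xcc : x * (c * c) = x * c := by
    rw [hc, ← pow_add]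
    exact per _ _
  have cPP : c * (P * P) = c * P := by
    rw [hc']
    calc (z * x) ^ m * z * x * (P * P) = (z * x) ^ m * z * (x * (P * P)) := by
          simp only [mul_assoc]
      _ = _ := by rw [xPP]; simp only [mul_assoc]
  have gPP : g * (P * P) = g * P := by
    rw [hg, mul_assoc _ c, cPP]; simp only [mul_assoc]
  have PPP : P * (P * P) = P * P := by
    have : P = g ^ m * g := by rw [hP, pow_succ]
    calc P * (P * P) = g ^ m * (g * (P * P)) := by rw [← mul_assoc (g ^ m), ← this]
      _ = P * P := by rw [gPP, ← mul_assoc, ← this]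
  have Pc : P * c = P := by
    have hgm : y * (x * c) = g := by rw [hg, mul_assoc]
    have this : P = g ^ m * (y * (x * c)) := by rw [hgm, hP, pow_succ]
    calc P * c = (g ^ m * (y * (x * c))) * c := congrArg (· * c) this
      _ = g ^ m * (y * (x * (c * c))) := by simp only [mul_assoc]
      _ = P := by rw [xcc, ← this]
  set yh := g ^ m * (y * x) * (z * x) ^ m * z with hyh
  have yhx : yh * x = P := by
    calc yh * x = g ^ m * (y * x * ((z * x) ^ m * z * x)) := by rw [hyh]; simp only [mul_assoc]
      _ = g ^ m * g := by rw [← hc', ← hg]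
      _ = P := by rw [hP, pow_succ]
  refine ⟨P * P * (g ^ m * (y * x) * (z * x) ^ m), c * P * (g ^ m * (y * x) * (z * x) ^ m), ?_⟩
  have e1 : P * P * (g ^ m * (y * x) * (z * x) ^ m) * z = P * P * yh := by
    rw [hyh]; simp only [mul_assoc]
  have e2 : c * P * (g ^ m * (y * x) * (z * x) ^ m) * z = c * P * yh := by
    rw [hyh]; simp only [mul_assoc]
  rw [e1, e2]
  have PPP' : ∀ s, P * (P * (P * s)) = P * (P * s) := by
    intro s
    calc P * (P * (P * s)) = (P * (P * P)) * s := by simp only [mul_assoc]
      _ = _ := by rw [PPP]; simp only [mul_assoc]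
  have cPP' : ∀ s, c * (P * (P * s)) = c * (P * s) := by
    intro s
    calc c * (P * (P * s)) = (c * (P * P)) * s := by simp only [mul_assoc]
      _ = _ := by rw [cPP]; simp only [mul_assoc]
  have Pc' : ∀ s, P * (c * s) = P * s := by
    intro s; rw [← mul_assoc, Pc]
  have yhx' : ∀ s, yh * (x * s) = P * s := by
    intro s; rw [← mul_assoc, yhx]
  refine ⟨?_, ?_, ?_, ?_, ?_⟩
  · simp only [mul_assoc, yhx', PPP']
  · simp only [mul_assoc, yhx', PPP', Pc']
  · simp only [mul_assoc, yhx', cPP']
  · simp only [mul_assoc, yhx', cPP', Pc']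
  · intro h
    apply hne
    have a1 : x * (P * P * yh) * x = x * P := by
      simp only [mul_assoc, yhx]
      rw [PPP, xPP]
    have a2 : x * (c * P * yh) * x = x * c * P := by
      simp only [mul_assoc, yhx]
      rw [cPP]
    rw [a1, a2] at h
    exact h

/-- every element of the form `a * s` with `s ∈ S` is in `S`. -/
theorem exists_coe_right {S : Type} [Semigroup S] (a : WithOne S) (s : S) :
    ∃ t : S, (t : WithOne S) = a * s := by
  rcases one_or_coe a with rfl | ⟨a, rfl⟩
  · exact ⟨s, by simp⟩
  · exact ⟨a * s, WithOne.coe_mul _ _⟩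

theorem exists_coe_left {S : Type} [Semigroup S] (a : WithOne S) (s : S) :
    ∃ t : S, (t : WithOne S) = s * a := by
  rcases one_or_coe a with rfl | ⟨a, rfl⟩
  · exact ⟨s, by simp⟩
  · exact ⟨s * a, WithOne.coe_mul _ _⟩

theorem dataL_of {S : Type} [Semigroup S] {n : ℕ} (hn : 1 ≤ n)
    (h1 : Satisfies S (idPow 2 (n + 2))) (h2 : Satisfies S (idII n)) (x y z : S)
    (hne : (x : WithOne S) * (y * x * (z * x) ^ n) ^ n
      ≠ x * (z * x) ^ n * (y * x * (z * x) ^ n) ^ n) : DataL S := by
  obtain ⟨Y1, Z1, a1, a2, a3, a4, a5⟩ := construct hn (x : WithOne S) y z (H1_of h1 h2 x) hne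
  obtain ⟨y1, hy1⟩ := exists_coe_right Y1 z
  obtain ⟨z1, hz1⟩ := exists_coe_right Z1 z
  rw [← hy1, ← hz1] at a2 a3 a5
  rw [← hy1] at a1
  rw [← hz1] at a4
  refine ⟨x, y1, z1, ?_, ?_, ?_, ?_, ?_⟩
  · exact coe_inj' (by simpa only [WithOne.coe_mul] using a1)
  · exact coe_inj' (by simpa only [WithOne.coe_mul] using a2)
  · exact coe_inj' (by simpa only [WithOne.coe_mul] using a3)
  · exact coe_inj' (by simpa only [WithOne.coe_mul] using a4)
  · intro h
    apply a5
    rw [← WithOne.coe_mul, ← WithOne.coe_mul, h]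
    simp only [WithOne.coe_mul]

theorem dataR_of {S : Type} [Semigroup S] {n : ℕ} (hn : 1 ≤ n)
    (h1 : Satisfies S (idPow 2 (n + 2))) (h2 : Satisfies S (idII n)) (x y z : S)
    (hne : (x : WithOne S) * ((z * x) ^ n * (y * x)) ^ n
      ≠ x * ((z * x) ^ n * (y * x)) ^ n * (z * x) ^ n) : DataR S := by
  have hx : ∀ Y : (WithOne S)ᵐᵒᵖ, MulOpposite.op (x : WithOne S) * Y * MulOpposite.op (x : WithOne S)
      = MulOpposite.op (x : WithOne S) * (Y * MulOpposite.op (x : WithOne S)) ^ (n + 1) := by
    intro Y
    apply MulOpposite.unop_injective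
    simp only [MulOpposite.unop_mul, MulOpposite.unop_op, MulOpposite.unop_pow]
    rw [← mul_assoc, H1_of h1 h2 x, mul_pow_slide]
  have hne' : MulOpposite.op (x : WithOne S) * (MulOpposite.op (y : WithOne S) * MulOpposite.op (x : WithOne S)
        * (MulOpposite.op (z : WithOne S) * MulOpposite.op (x : WithOne S)) ^ n) ^ n
      ≠ MulOpposite.op (x : WithOne S) * (MulOpposite.op (z : WithOne S) * MulOpposite.op (x : WithOne S)) ^ n
        * (MulOpposite.op (y : WithOne S) * MulOpposite.op (x : WithOne S)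
        * (MulOpposite.op (z : WithOne S) * MulOpposite.op (x : WithOne S)) ^ n) ^ n := by
    intro h
    apply hne
    have h' := congrArg MulOpposite.unop h
    simp only [MulOpposite.unop_mul, MulOpposite.unop_op, MulOpposite.unop_pow] at h'
    -- h' : ((x z)^n (x y))^n x = ((x z)^n (x y))^n ((x z)^n x)
    have s1 : (x : WithOne S) * ((z * x) ^ n * (y * x)) ^ n
        = ((x * z : WithOne S) ^ n * (x * y)) ^ n * x := by
      have e1 : ((z : WithOne S) * x) ^ n * (y * x) = (((z : WithOne S) * x) ^ n * y) * x := by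
        simp only [mul_assoc]
      rw [e1, ← mul_pow_slide]
      congr 2
      rw [← mul_assoc, ← mul_pow_slide]; simp only [mul_assoc]
    have s2 : ((x * z : WithOne S) ^ n * (x * y)) ^ n * x * (z * x) ^ n
        = ((x * z : WithOne S) ^ n * (x * y)) ^ n * ((x * z : WithOne S) ^ n * x) := by
      rw [mul_assoc, mul_pow_slide]
    rw [s1, s2]; exact h'
  obtain ⟨Y1, Z1, a1, a2, a3, a4, a5⟩ := construct hn (MulOpposite.op (x : WithOne S))
    (MulOpposite.op (y : WithOne S)) (MulOpposite.op (z : WithOne S)) hx hne'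
  obtain ⟨y1, hy1⟩ := exists_coe_left Y1.unop z
  obtain ⟨z1, hz1⟩ := exists_coe_left Z1.unop z
  have b1 := congrArg MulOpposite.unop a1
  have b2 := congrArg MulOpposite.unop a2
  have b3 := congrArg MulOpposite.unop a3
  have b4 := congrArg MulOpposite.unop a4
  simp only [MulOpposite.unop_mul, MulOpposite.unop_op] at b1 b2 b3 b4
  rw [← hy1] at b1 b2 b3
  rw [← hz1] at b2 b3 b4
  refine ⟨x, y1, z1, ?_, ?_, ?_, ?_, ?_⟩
  · exact coe_inj' (by simpa only [WithOne.coe_mul, mul_assoc] using b1)
  · exact coe_inj' (by simpa only [WithOne.coe_mul, mul_assoc] using b2)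
  · exact coe_inj' (by simpa only [WithOne.coe_mul, mul_assoc] using b3)
  · exact coe_inj' (by simpa only [WithOne.coe_mul, mul_assoc] using b4)
  · intro h
    apply a5
    apply MulOpposite.unop_injective
    simp only [MulOpposite.unop_mul, MulOpposite.unop_op]
    rw [← hy1, ← hz1, ← mul_assoc, ← mul_assoc, ← WithOne.coe_mul, ← WithOne.coe_mul,
      ← WithOne.coe_mul, ← WithOne.coe_mul, h]

/-- **Case C**: `(i)`, `(ii)` hold, `(iii)` fails. -/
theorem caseC {S : Type} [Semigroup S] {n : ℕ} (hn : 1 ≤ n)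
    (h1 : Satisfies S (idPow 2 (n + 2))) (h2 : Satisfies S (idII n))
    (h3 : ¬ Satisfies S (idIII n)) : DataL S ∨ DataR S := by
  by_contra hcon
  rw [not_or] at hcon
  obtain ⟨hL, hR⟩ := hcon
  apply h3
  rw [sat_III]
  intro x y z
  have A := not_not.1 (fun h => hL (dataL_of hn h1 h2 x y z h))
  have B := not_not.1 (fun h => hR (dataR_of hn h1 h2 x y z h))
  apply coe_inj'
  obtain ⟨m, rfl⟩ : ∃ m, n = m + 1 := ⟨n - 1, by omega⟩
  simp only [WithOne.coe_mul, coe_spow]
  set X' := (x : WithOne S) with hX'
  set Y' := (y : WithOne S)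
  set Z' := (z : WithOne S)
  have hx := H1_of h1 h2 x
  rw [← hX'] at hx
  set c := (Z' * X') ^ (m + 1) with hc
  have hc' : c = (Z' * X') ^ m * Z' * X' := by rw [hc, pow_succ]; simp only [mul_assoc]
  have e1 : X' * (Y' * X' * c) = X' * (Y' * X' * c) ^ (m + 1 + 1) := by
    have := hx (Y' * X' * ((Z' * X') ^ m * Z'))
    have hg : Y' * X' * c = Y' * X' * ((Z' * X') ^ m * Z') * X' := by
      rw [hc']; simp only [mul_assoc]
    rw [hg, ← this]; simp only [mul_assoc]
  have e2 : c * (Y' * X' * c) = c * (Y' * X' * c) ^ (m + 1 + 1) := by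
    calc c * (Y' * X' * c) = (Z' * X') ^ m * Z' * (X' * (Y' * X' * c)) := by
          rw [← mul_assoc ((Z' * X') ^ m * Z') X', ← hc']
      _ = (Z' * X') ^ m * Z' * (X' * (Y' * X' * c) ^ (m + 1 + 1)) := by rw [e1]
      _ = c * (Y' * X' * c) ^ (m + 1 + 1) := by
          rw [← mul_assoc ((Z' * X') ^ m * Z'), ← hc']
  have e3 : X' * (c * (Y' * X')) = X' * (c * (Y' * X')) ^ (m + 1 + 1) := by
    have := hx (c * Y')
    calc X' * (c * (Y' * X')) = X' * (c * Y') * X' := by simp only [mul_assoc]
      _ = X' * ((c * Y') * X') ^ (m + 1 + 1) := this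
      _ = _ := by simp only [mul_assoc]
  -- xac = xcac
  have f1 : X' * (Y' * X' * c) = X' * c * (Y' * X' * c) := by
    calc X' * (Y' * X' * c) = X' * (Y' * X' * c) ^ (m + 1) * (Y' * X' * c) := by
          rw [e1, pow_succ]; simp only [mul_assoc]
      _ = X' * c * (Y' * X' * c) ^ (m + 1) * (Y' * X' * c) := by rw [A]
      _ = X' * (c * (Y' * X' * c) ^ (m + 1 + 1)) := by
          rw [pow_succ _ (m + 1)]; simp only [mul_assoc]
      _ = X' * c * (Y' * X' * c) := by rw [← e2]; simp only [mul_assoc]
  -- xca = xcac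
  have f2 : X' * (c * (Y' * X')) = X' * (c * (Y' * X')) * c := by
    calc X' * (c * (Y' * X')) = X' * (c * (Y' * X')) ^ (m + 1 + 1) := e3
      _ = X' * c * Y' * (X' * (c * (Y' * X')) ^ (m + 1)) := by
          rw [pow_succ']; simp only [mul_assoc]
      _ = X' * c * Y' * (X' * (c * (Y' * X')) ^ (m + 1) * c) := by rw [← B]
      _ = X' * (c * (Y' * X')) ^ (m + 1 + 1) * c := by
          rw [pow_succ' _ (m + 1)]; simp only [mul_assoc]
      _ = X' * (c * (Y' * X')) * c := by rw [← e3]
  calc X' * Y' * X' * c = X' * (Y' * X' * c) := by simp only [mul_assoc]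
    _ = X' * c * (Y' * X' * c) := f1
    _ = X' * (c * (Y' * X')) * c := by simp only [mul_assoc]
    _ = X' * (c * (Y' * X')) := f2.symm
    _ = X' * c * Y' * X' := by simp only [mul_assoc]

end RSCov
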